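import Pool.Agent.U475.EA.S.Shift

/-!
# Edwards–Anderson model: functions of finitely many couplings, and their variance
-/

set_option autoImplicit false

open MeasureTheory Filter
open scoped ENNReal Topology

namespace Pool.Agent.U475.EA

open Pool.H47EA

variable {d : ℕ}

/-- `G` depends only on the couplings of the edges in `E` -/
def DepOn {α : Type} (E : Finset (lat d).edgeSet) (G : Coupling d → α) : Prop :=
  ∀ J J' : Coupling d, (∀ e ∈ E, J e = J' e) → G J = G J'

theorem DepOn.factor {α : Type} {E : Finset (lat d).edgeSet} {G : Coupling d → α}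
    (h : DepOn E G) : ∃ g : (E → Bool) → α, G = g ∘ fun J e => J e := by
  classical
  refine ⟨fun y => G (fun e => if h : e ∈ E then y ⟨e, h⟩ else false), ?_⟩
  funext J
  exact h _ _ fun e he => by simp [he]

theorem DepOn.meas {α : Type} [MeasurableSpace α] {E : Finset (lat d).edgeSet}
    {G : Coupling d → α} (h : DepOn E G) : Measurable G := by
  obtain ⟨g, rfl⟩ := h.factor
  exact (measurable_of_finite g).comp (measurable_pi_lambda _ fun e => measurable_pi_apply _)

theorem DepOn.bdd {E : Finset (lat d).edgeSet} {G : Coupling d → ℝ} (h : DepOn E G) :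
    ∃ C, ∀ J, |G J| ≤ C := by
  obtain ⟨g, rfl⟩ := h.factor
  refine ⟨∑ y, |g y|, fun J => ?_⟩
  exact Finset.single_le_sum (f := fun y => |g y|) (fun _ _ => abs_nonneg _) (Finset.mem_univ _)

theorem DepOn.integrable {E : Finset (lat d).edgeSet} {G : Coupling d → ℝ} (h : DepOn E G) :
    Integrable G (couplingLaw d) := by
  obtain ⟨C, hC⟩ := h.bdd
  exact Integrable.of_bound h.meas.aestronglyMeasurable C (ae_of_all _ hC)

/-- reverse one sign -/
def rvE (e : (lat d).edgeSet) (J : Coupling d) : Coupling d := by
  classical
  exact fun i => if i = e then !(J i) else J i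

theorem map_rvE (e : (lat d).edgeSet) : (couplingLaw d).map (rvE e) = couplingLaw d := by
  classical
  unfold couplingLaw
  have h := Measure.infinitePi_map_pi (μ := fun _ : (lat d).edgeSet =>
    (PMF.uniformOfFintype Bool).toMeasure) (f := fun i b => if i = e then !b else b)
    (fun _ => measurable_of_finite _)
  have e1 : (fun (x : Coupling d) i => if i = e then !(x i) else x i) = rvE e := by
    funext x i
    unfold rvE
    congr
  rw [e1] at h
  rw [h]
  congr 1
  funext i
  by_cases hi : i = e
  · simp only [hi, if_true]; exact map_not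
  · simp only [hi, if_false]; exact Measure.map_id

theorem measurable_rvE (e : (lat d).edgeSet) : Measurable (rvE e) := by
  classical
  refine measurable_pi_lambda _ fun i => ?_
  unfold rvE
  by_cases hi : i = e
  · simp only [hi, if_true]
    exact (measurable_of_finite (fun b : Bool => !b)).comp (measurable_pi_apply e)
  · simp only [hi, if_false]; exact measurable_pi_apply i

theorem integral_rvE (e : (lat d).edgeSet) (G : Coupling d → ℝ) (hG : Measurable G) :
    ∫ J, G (rvE e J) ∂(couplingLaw d) = ∫ J, G J ∂(couplingLaw d) := by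
  conv_rhs => rw [← map_rvE e]
  rw [integral_map (measurable_rvE e).aemeasurable hG.aestronglyMeasurable]

theorem rvE_same (e : (lat d).edgeSet) (J : Coupling d) : rvE e J e = !(J e) := by
  simp [rvE]

theorem rvE_other (e i : (lat d).edgeSet) (h : i ≠ e) (J : Coupling d) : rvE e J i = J i := by
  simp [rvE, h]

theorem rvE_comm (e e' : (lat d).edgeSet) (J : Coupling d) :
    rvE e (rvE e' J) = rvE e' (rvE e J) := by
  funext i
  by_cases h1 : i = e
  · subst h1
    by_cases h2 : i = e'
    · subst h2; rfl
    · rw [rvE_same, rvE_other _ _ h2, rvE_other _ _ h2, rvE_same]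
  · by_cases h2 : i = e'
    · subst h2
      rw [rvE_same, rvE_other _ _ h1, rvE_other _ _ h1, rvE_same]
    · rw [rvE_other _ _ h1, rvE_other _ _ h2, rvE_other _ _ h2, rvE_other _ _ h1]

/-- the variance of a function of finitely many signs -/
theorem variance_le (c : ℝ) (E : Finset (lat d).edgeSet) : ∀ G : Coupling d → ℝ, DepOn E G →
    (∀ e J, |G J - G (rvE e J)| ≤ c) →
    ∫ J, G J ^ 2 ∂(couplingLaw d) - (∫ J, G J ∂(couplingLaw d)) ^ 2 ≤ E.card * (c ^ 2 / 4) := by
  classical
  induction E using Finset.induction_on with
  | empty =>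
    intro G hG _
    have hc : ∀ J, G J = G (fun _ => true) := fun J => hG _ _ (by simp)
    simp [hc]
  | insert e E he ih =>
    intro G hG hc
    set G' : Coupling d → ℝ := fun J => (G J + G (rvE e J)) / 2 with hG'
    have hGm := hG.meas
    have hdf : DepOn (insert e E) (fun J => G (rvE e J)) := by
      intro J J' h
      refine hG _ _ fun i hi => ?_
      by_cases hie : i = e
      · subst hie; rw [rvE_same, rvE_same, h i hi]
      · rw [rvE_other _ _ hie, rvE_other _ _ hie, h i hi]
    have hdep : DepOn E G' := by
      intro J J' h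
      by_cases hJ : J e = J' e
      · have h1 : ∀ i ∈ insert e E, J i = J' i := by
          intro i hi
          rcases Finset.mem_insert.1 hi with rfl | hi
          · exact hJ
          · exact h i hi
        have h2 := hdf J J' h1
        simp only at h2
        simp only [hG']
        rw [hG J J' h1, h2]
      · have hne : ∀ i ∈ E, i ≠ e := fun i hi hie => he (hie ▸ hi)
        have h1 : G J = G (rvE e J') := hG _ _ fun i hi => by
          rcases Finset.mem_insert.1 hi with rfl | hi
          · rw [rvE_same]
            cases hb : J i <;> cases hb' : J' i <;> simp_all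
          · rw [rvE_other _ _ (hne i hi)]; exact h i hi
        have h2 : G (rvE e J) = G J' := hG _ _ fun i hi => by
          rcases Finset.mem_insert.1 hi with rfl | hi
          · rw [rvE_same]
            cases hb : J i <;> cases hb' : J' i <;> simp_all
          · rw [rvE_other _ _ (hne i hi)]; exact h i hi
        simp only [hG']
        rw [h1, h2, add_comm]
    have hc' : ∀ i J, |G' J - G' (rvE i J)| ≤ c := by
      intro i J
      simp only [hG']
      rw [rvE_comm e i J]
      have h1 := abs_le.1 (hc i J)
      have h2 := abs_le.1 (hc i (rvE e J))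
      rw [abs_le]
      constructor <;> linarith [h1.1, h1.2, h2.1, h2.2]
    have hih := ih G' hdep hc'
    have hc0 : 0 ≤ c := (abs_nonneg _).trans (hc e (fun _ => true))
    have hi1 : Integrable G (couplingLaw d) := hG.integrable
    have hi2 : Integrable (fun J => G (rvE e J)) (couplingLaw d) := hdf.integrable
    have hsq : DepOn (insert e E) (fun J => G J ^ 2) := fun J J' h => by
      simp only; rw [hG J J' h]
    have hsqf : DepOn (insert e E) (fun J => G (rvE e J) ^ 2) := fun J J' h => by
      have := hdf J J' h
      simp only at this ⊢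
      rw [this]
    have hi3 := hsq.integrable
    have hi4 := hsqf.integrable
    have e1 : ∫ J, G' J ∂(couplingLaw d) = ∫ J, G J ∂(couplingLaw d) := by
      simp only [hG']
      rw [integral_div, integral_add hi1 hi2, integral_rvE e G hGm]; ring
    have e2 : ∫ J, G (rvE e J) ^ 2 ∂(couplingLaw d) = ∫ J, G J ^ 2 ∂(couplingLaw d) :=
      integral_rvE e (fun J => G J ^ 2) (hGm.pow_const 2)
    have e3 : ∫ J, G J ^ 2 ∂(couplingLaw d) =
        ∫ J, (G J ^ 2 + G (rvE e J) ^ 2) / 2 ∂(couplingLaw d) := by
      rw [integral_div, integral_add hi3 hi4, e2]; ring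
    have hle : ∫ J, (G J ^ 2 + G (rvE e J) ^ 2) / 2 ∂(couplingLaw d) ≤
        ∫ J, (G' J ^ 2 + c ^ 2 / 4) ∂(couplingLaw d) := by
      have hsq' : DepOn E (fun J => G' J ^ 2) := fun J J' h => by
        simp only; rw [hdep J J' h]
      refine integral_mono ((hi3.add hi4).div_const 2) (hsq'.integrable.add (integrable_const _))
        fun J => ?_
      simp only [hG']
      have h1 : (G J - G (rvE e J)) ^ 2 ≤ c ^ 2 := sq_le_sq' (abs_le.1 (hc e J)).1
        (abs_le.1 (hc e J)).2
      nlinarith
    have hsq' : DepOn E (fun J => G' J ^ 2) := fun J J' h => by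
      simp only; rw [hdep J J' h]
    rw [integral_add hsq'.integrable (integrable_const _)] at hle
    simp only [integral_const, smul_eq_mul, probReal_univ, one_mul] at hle
    rw [Finset.card_insert_of_notMem he]
    push_cast
    rw [e1] at hih
    rw [e3]
    linarith

/-- the edges touching `L` -/
noncomputable def edF (L : Finset (Site d)) : Finset (lat d).edgeSet := by
  classical
  exact (edgesOf L).subtype (· ∈ (lat d).edgeSet)

theorem mem_edF (L : Finset (Site d)) (e : (lat d).edgeSet) : e ∈ edF L ↔ e.1 ∈ edgesOf L := by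
  classical
  unfold edF
  rw [Finset.mem_subtype]

theorem card_edF_le (L : Finset (Site d)) : (edF L).card ≤ (edgesOf L).card := by
  classical
  unfold edF
  rw [Finset.card_subtype]
  exact Finset.card_filter_le _ _

theorem edF_mono {L L' : Finset (Site d)} (h : L ⊆ L') : edF L ⊆ edF L' := by
  intro e he
  rw [mem_edF] at he ⊢
  exact Basic.edgesOf_mono h he

theorem bond_dep (L : Finset (Site d)) (J J' : Coupling d) (h : ∀ e ∈ edF L, J e = J' e)
    (σ : Site d → Bool) (e : Sym2 (Site d)) (he : e ∈ edgesOf L) : bond J σ e = bond J' σ e := by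
  obtain ⟨x, hx, y, hy, rfl⟩ := Basic.mem_edgesOf.1 he
  have hadj : (lat d).Adj x y := hy
  have h1 := h ⟨s(x, y), hadj⟩ ((mem_edF L _).2 he)
  rw [Basic.bond_mk, Basic.bond_mk]
  unfold Jc
  rw [dif_pos hadj, dif_pos hadj, h1]

theorem ham_dep (L : Finset (Site d)) (J J' : Coupling d) (h : ∀ e ∈ edF L, J e = J' e)
    (σ : Site d → Bool) : ham J L σ = ham J' L σ :=
  Finset.sum_congr rfl fun e he => bond_dep L J J' h σ e he

theorem cE_dep (L : Finset (Site d)) (ω : Site d → Bool) (f : (Site d → Bool) → ℝ) :
    DepOn (edF L) (fun J => cE J L ω f) := by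
  intro J J' h
  unfold cE
  have : (fun η : L → Bool => ham J L (glue L η ω)) = fun η => ham J' L (glue L η ω) := by
    funext η; exact ham_dep L J J' h _
  simp only
  rw [this]

theorem gE_dep (β : ℝ) (L : Finset (Site d)) (ω : Site d → Bool) (f : (Site d → Bool) → ℝ) :
    DepOn (edF L) (fun J => gE β J L ω f) := by
  intro J J' h
  unfold gE Zp
  simp only [ham_dep L J J' h]

theorem Zp_dep (β : ℝ) (L : Finset (Site d)) (ω : Site d → Bool) :
    DepOn (edF L) (fun J => Zp β J L ω) := by
  intro J J' h
  unfold Zp
  simp only [ham_dep L J J' h]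

theorem gk_dep (A : Finset (Site d)) (f : (Site d → Bool) → ℝ) (k : ℕ) :
    DepOn (edF (vol A k)) (fun J => gk J A f k) := by
  intro J J' h
  cases k with
  | zero => exact cE_dep (vol A 0) _ f J J' h
  | succ k =>
    have h1 := cE_dep (vol A (k + 1)) (fun _ => true) f J J' h
    have h2 := cE_dep (vol A k) (fun _ => true) f J J'
      fun e he => h e (edF_mono (vol_mono A (Nat.le_succ k)) he)
    simp only at h1 h2
    show (fun z => cE J (vol A (k + 1)) (fun _ => true) f z - cE J (vol A k) (fun _ => true) f z) =
      fun z => cE J' (vol A (k + 1)) (fun _ => true) f z - cE J' (vol A k) (fun _ => true) f z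
    rw [h1, h2]

theorem meas_rd (A : Finset (Site d)) (f : (Site d → Bool) → ℝ) (k m : ℕ) (x : ℝ) :
    Measurable fun J : Coupling d => rd (gk J A f k) m x := by
  have : DepOn (edF (vol A k)) (fun J : Coupling d => rd (gk J A f k) m x) := by
    intro J J' h
    have := gk_dep A f k J J' h
    simp only at this ⊢
    rw [this]
  exact this.meas

/-- one coupling depends on one edge -/
theorem Jc_dep (x y : Site d) : DepOn (edF {x}) (fun J => Jc J x y) := by
  intro J J' h
  simp only
  unfold Jc
  by_cases hadj : (lat d).Adj x y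
  · rw [dif_pos hadj, dif_pos hadj, h ⟨s(x, y), hadj⟩ ((mem_edF {x} _).2
      (Basic.mem_edgesOf.2 ⟨x, by simp, y, hadj, rfl⟩))]
  · rw [dif_neg hadj, dif_neg hadj]

end Pool.Agent.U475.EA
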