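import Pool.Agent.U475.EA.S.Quenched
import Pool.Agent.U475.EA.S.Var

/-!
# Edwards–Anderson model: averages over the couplings
-/

set_option autoImplicit false

open MeasureTheory Filter Set
open scoped ENNReal Topology Nat

namespace Pool.Agent.U475.EA

open Pool.H47EA

/-- the properties of the constants -/
structure Env (c : ℝ) (d : ℕ) (K : Finset (Site d) → Coupling d → ℝ≥0∞) : Prop where
  meas : ∀ A, A.Nonempty → Measurable (K A)
  one_le : ∀ A, A.Nonempty → ∀ J, 1 ≤ K A J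
  mean : ∀ A, A.Nonempty → ∫⁻ J, K A J ∂(couplingLaw d) ≤ 64800 ^ d * A.card
  loss : ∀ A : Finset (Site d), A.Nonempty → ∀ J : Coupling d, K A J < ∞ →
    Loss J (c / √(d : ℝ)) A (K A J).toReal
  ae : ∀ᵐ J ∂(couplingLaw d), (∀ A : Finset (Site d), A.Nonempty → K A J < ∞) ∧
    ∀ β : ℝ, |β| ≤ c / √(d : ℝ) → ∃! π : Measure (Site d → Bool), IsGibbs β J π

variable {d : ℕ} {c : ℝ} {K : Finset (Site d) → Coupling d → ℝ≥0∞}

/-- the product of two spins -/
def s2 (x y : Site d) (σ : Site d → Bool) : ℝ := sg (σ x) * sg (σ y)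

open Classical in
/-- the pair of two sites -/
noncomputable def pr (x y : Site d) : Finset (Site d) := {x, y}

theorem mem_pr (x y z : Site d) : z ∈ pr x y ↔ z = x ∨ z = y := by
  classical
  simp [pr]

theorem pr_ne (x y : Site d) : (pr x y).Nonempty := ⟨x, (mem_pr x y x).2 (Or.inl rfl)⟩

theorem card_pr_le (x y : Site d) : (pr x y).card ≤ 2 := by
  classical
  exact Finset.card_le_two

theorem abs_sg_one (b : Bool) : |sg b| = 1 := by cases b <;> simp [sg]

theorem abs_s2 (x y : Site d) (σ : Site d → Bool) : |s2 x y σ| ≤ 1 := by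
  unfold s2
  rw [abs_mul, abs_sg_one, abs_sg_one, mul_one]

theorem s2_local (x y : Site d) : LocalOn (pr x y) (s2 x y) := by
  intro σ σ' h
  unfold s2
  rw [h x ((mem_pr x y x).2 (Or.inl rfl)), h y ((mem_pr x y y).2 (Or.inr rfl))]

theorem abs_Jc_one (J : Coupling d) (x y : Site d) : |Jc J x y| ≤ 1 := by
  unfold Jc
  split_ifs
  · rw [abs_sg_one]
  · simp

section env

variable (hc : 0 < c) (hd : 1 ≤ d) (hE : Env c d K)

include hE in
theorem Env.lt_top (A : Finset (Site d)) (hA : A.Nonempty) :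
    ∫⁻ J, K A J ∂(couplingLaw d) < ∞ :=
  (hE.mean A hA).trans_lt
    (ENNReal.mul_lt_top (ENNReal.pow_lt_top (by norm_num)) (ENNReal.natCast_lt_top _))

include hE in
theorem Env.integrable (A : Finset (Site d)) (hA : A.Nonempty) :
    Integrable (fun J => (K A J).toReal) (couplingLaw d) :=
  integrable_toReal_of_lintegral_ne_top (hE.meas A hA).aemeasurable (hE.lt_top A hA).ne

include hE in
theorem Env.mean_real (A : Finset (Site d)) (hA : A.Nonempty) :
    ∫ J, (K A J).toReal ∂(couplingLaw d) ≤ 64800 ^ d * A.card := by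
  rw [integral_toReal (hE.meas A hA).aemeasurable
    (ae_lt_top (hE.meas A hA) (hE.lt_top A hA).ne)]
  have h := hE.mean A hA
  have h2 : (64800 ^ d * A.card : ℝ≥0∞) = ENNReal.ofReal (64800 ^ d * A.card) := by
    rw [ENNReal.ofReal_mul (by positivity), ENNReal.ofReal_pow (by norm_num),
      ENNReal.ofReal_natCast]
    norm_num
  rw [h2] at h
  exact ENNReal.toReal_le_of_le_ofReal (by positivity) h

include hE in
theorem Env.one_le_real (A : Finset (Site d)) (hA : A.Nonempty) (J : Coupling d)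
    (hfin : K A J < ∞) : 1 ≤ (K A J).toReal := by
  have h := hE.one_le A hA J
  rw [← ENNReal.toReal_one]
  exact (ENNReal.toReal_le_toReal (by norm_num) hfin.ne).2 h

include hc hd hE in
theorem Gm_aesm (A : Finset (Site d)) (hA : A.Nonempty) (f : (Site d → Bool) → ℝ)
    (hf : ∀ σ, |f σ| ≤ 1) (hfl : LocalOn A f) (m : ℕ) (x : ℝ) (hx : |x| < c / √(d : ℝ) / 2) :
    AEStronglyMeasurable (fun J => Gm J A f m x) (couplingLaw d) := by
  refine aestronglyMeasurable_of_tendsto_ae atTop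
    (f := fun (n : ℕ) (J : Coupling d) => ∑ k ∈ Finset.range n, rd (gk J A f k) m x)
    (fun n => (Finset.measurable_sum _ fun k _ => meas_rd A f k m x).aestronglyMeasurable) ?_
  filter_upwards [hE.ae] with J hJ
  have hfin := hJ.1 A hA
  exact (Gm_summable hc hd J A hA _ (hE.one_le_real A hA J hfin) (hE.loss A hA J hfin) f hf hfl
    m x hx).hasSum.tendsto_sum_nat

/-- the constants of the bounds -/
noncomputable def Bm (c : ℝ) (d n m : ℕ) : ℝ :=
  (n * (2160 * (1 + 1 / c) * d) ^ d) ^ m * (m ! : ℝ) ^ (d + 1)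

include hc in
theorem Bm_nonneg (n m : ℕ) : 0 ≤ Bm c d n m := by
  unfold Bm
  positivity

/-- a bounded coefficient times the derivatives of the expectation of a local function -/
noncomputable def Hm (g : Coupling d → ℝ) (A : Finset (Site d)) (f : (Site d → Bool) → ℝ) (m : ℕ)
    (x : ℝ) : ℝ := ∫ J, g J * Gm J A f m x ∂(couplingLaw d)

variable (g : Coupling d → ℝ) (hg : Measurable g) (hg1 : ∀ J, |g J| ≤ 1)
  (A : Finset (Site d)) (hA : A.Nonempty) (f : (Site d → Bool) → ℝ)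
  (hf : ∀ σ, |f σ| ≤ 1) (hfl : LocalOn A f)

include hc hd hE hg1 hA hf hfl in
theorem Hm_bound (m : ℕ) : ∀ᵐ J ∂(couplingLaw d), ∀ x, |x| < c / √(d : ℝ) / 2 →
    ‖g J * Gm J A f m x‖ ≤ 148 * (K A J).toReal * Bm c d A.card m := by
  filter_upwards [hE.ae] with J hJ x hx
  have hfin := hJ.1 A hA
  rw [Real.norm_eq_abs, abs_mul]
  have h1 := Gm_le' hc hd J A hA _ (hE.one_le_real A hA J hfin) (hE.loss A hA J hfin) f hf hfl
    m x hx
  calc |g J| * |Gm J A f m x| ≤ 1 * |Gm J A f m x| :=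
        mul_le_mul_of_nonneg_right (hg1 J) (abs_nonneg _)
    _ = |Gm J A f m x| := one_mul _
    _ ≤ _ := h1

include hc hd hE hg hg1 hA hf hfl in
theorem Hm_integrable (m : ℕ) (x : ℝ) (hx : |x| < c / √(d : ℝ) / 2) :
    Integrable (fun J => g J * Gm J A f m x) (couplingLaw d) := by
  refine Integrable.mono' (((hE.integrable A hA).const_mul 148).mul_const (Bm c d A.card m))
    (hg.aestronglyMeasurable.mul (Gm_aesm hc hd hE A hA f hf hfl m x hx)) ?_
  filter_upwards [Hm_bound hc hd hE g hg1 A hA f hf hfl m] with J hJ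
  exact hJ x hx

include hc hd hE hg hg1 hA hf hfl in
theorem Hm_deriv (m : ℕ) (x : ℝ) (hx : |x| < c / √(d : ℝ) / 2) :
    HasDerivAt (Hm g A f m) (Hm g A f (m + 1) x) x := by
  have hs : Ioo (-(c / √(d : ℝ) / 2)) (c / √(d : ℝ) / 2) ∈ 𝓝 x :=
    isOpen_Ioo.mem_nhds ((mem_Ioo_abs _ x).2 hx)
  refine (hasDerivAt_integral_of_dominated_loc_of_deriv_le
    (F := fun y J => g J * Gm J A f m y) (F' := fun y J => g J * Gm J A f (m + 1) y)
    (bound := fun J => 148 * (K A J).toReal * Bm c d A.card (m + 1)) hs ?_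
    (Hm_integrable hc hd hE g hg hg1 A hA f hf hfl m x hx)
    (Hm_integrable hc hd hE g hg hg1 A hA f hf hfl (m + 1) x hx).aestronglyMeasurable ?_
    (((hE.integrable A hA).const_mul 148).mul_const _) ?_).2
  · filter_upwards [hs] with y hy
    exact (Hm_integrable hc hd hE g hg hg1 A hA f hf hfl m y
      ((mem_Ioo_abs _ y).1 hy)).aestronglyMeasurable
  · filter_upwards [Hm_bound hc hd hE g hg1 A hA f hf hfl (m + 1)] with J hJ y hy
    exact hJ y ((mem_Ioo_abs _ y).1 hy)
  · filter_upwards [hE.ae] with J hJ y hy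
    have hfin := hJ.1 A hA
    exact (Gm_deriv hc hd J A hA _ (hE.one_le_real A hA J hfin) (hE.loss A hA J hfin) f hf hfl
      m y ((mem_Ioo_abs _ y).1 hy)).const_mul (g J)

omit hg in
include hc hd hE hg1 hA hf hfl in
theorem Hm_le (m : ℕ) (x : ℝ) (hx : |x| < c / √(d : ℝ) / 2) :
    |Hm g A f m x| ≤ 148 * (64800 ^ d * A.card) * Bm c d A.card m := by
  have h1 : ‖Hm g A f m x‖ ≤ ∫ J, 148 * (K A J).toReal * Bm c d A.card m ∂(couplingLaw d) := by
    refine norm_integral_le_of_norm_le (((hE.integrable A hA).const_mul 148).mul_const _) ?_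
    filter_upwards [Hm_bound hc hd hE g hg1 A hA f hf hfl m] with J hJ
    exact hJ x hx
  rw [Real.norm_eq_abs] at h1
  refine h1.trans ?_
  rw [integral_mul_const, integral_const_mul]
  have := hE.mean_real A hA
  have h2 := Bm_nonneg (d := d) hc A.card m
  gcongr

/-- a Gibbs state is close to the finite-volume measures -/
theorem gibbs_dev {b : ℝ} (J : Coupling d) (A : Finset (Site d)) (K : ℝ) (hK : Loss J b A K)
    (f : (Site d → Bool) → ℝ) (hf : ∀ σ, |f σ| ≤ 1) (hfl : LocalOn A f) (x : ℝ) (hx : |x| ≤ b)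
    (π : Measure (Site d → Bool)) (hπ : IsGibbs x J π) (L : Finset (Site d)) (r : ℕ)
    (hAL : A ⊆ L) (hfar : ∀ a ∈ A, ∀ y, y ∉ L → r ≤ dist1 a y) (ω : Site d → Bool) :
    |gE x J L ω f - ∫ σ, f σ ∂π| ≤ K * Real.exp (-((r : ℝ) / 9)) := by
  have := hπ.1
  have hfm := local_meas A f hfl
  have e1 := gibbs_int hπ L f hfm 1 hf
  have hGm : Measurable fun ω' => gE x J L ω' f := meas_gE x J _ f hfm
  have hGi : Integrable (fun ω' => gE x J L ω' f) π :=
    Integrable.of_bound hGm.aestronglyMeasurable 1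
      (ae_of_all _ fun ω' => abs_gE_le x J _ ω' f 1 hf)
  rw [← e1]
  have e2 : gE x J L ω f - ∫ ω', gE x J L ω' f ∂π =
      ∫ ω', (gE x J L ω f - gE x J L ω' f) ∂π := by
    rw [integral_sub (integrable_const _) hGi]; simp
  rw [e2]
  have := norm_integral_le_of_norm_le_const (μ := π)
    (f := fun ω' => gE x J L ω f - gE x J L ω' f)
    (C := K * Real.exp (-((r : ℝ) / 9))) (ae_of_all _ fun ω' => by
      rw [Real.norm_eq_abs]
      exact hK x hx L r hAL hfar f hf hfl ω ω')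
  simpa using this

include hc hd hE hg hg1 hA hf hfl in
/-- comparison with finite volumes -/
theorem Hm_fin (x : ℝ) (hx : |x| < c / √(d : ℝ) / 2) (L : Finset (Site d)) (r : ℕ)
    (hAL : A ⊆ L) (hfar : ∀ a ∈ A, ∀ y, y ∉ L → r ≤ dist1 a y) (ω : Site d → Bool) :
    |(∫ J, g J * gE x J L ω f ∂(couplingLaw d)) - Hm g A f 0 x| ≤
      64800 ^ d * A.card * Real.exp (-((r : ℝ) / 9)) := by
  have hb := (b_pos hc hd A hA).1
  have hgEi : Integrable (fun J => gE x J L ω f) (couplingLaw d) := (gE_dep x L ω f).integrable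
  have hi : Integrable (fun J => g J * gE x J L ω f) (couplingLaw d) := by
    refine Integrable.of_bound (hg.aestronglyMeasurable.mul hgEi.aestronglyMeasurable) 1
      (ae_of_all _ fun J => ?_)
    rw [Real.norm_eq_abs, abs_mul]
    calc |g J| * |gE x J L ω f| ≤ 1 * 1 :=
          mul_le_mul (hg1 J) (abs_gE_le x J L ω f 1 hf) (abs_nonneg _) zero_le_one
      _ = 1 := one_mul 1
  unfold Hm
  rw [← integral_sub hi (Hm_integrable hc hd hE g hg hg1 A hA f hf hfl 0 x hx)]
  have h1 : ‖∫ J, (g J * gE x J L ω f - g J * Gm J A f 0 x) ∂(couplingLaw d)‖ ≤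
      ∫ J, (K A J).toReal * Real.exp (-((r : ℝ) / 9)) ∂(couplingLaw d) := by
    refine norm_integral_le_of_norm_le ((hE.integrable A hA).mul_const _) ?_
    filter_upwards [hE.ae] with J hJ
    have hfin := hJ.1 A hA
    obtain ⟨π, hπ, -⟩ := hJ.2 x (by linarith)
    rw [Gm_zero hc hd J A hA _ (hE.one_le_real A hA J hfin) (hE.loss A hA J hfin) f hf hfl
      x hx π hπ, ← mul_sub, Real.norm_eq_abs, abs_mul]
    have h2 := gibbs_dev J A _ (hE.loss A hA J hfin) f hf hfl x (by linarith) π hπ L r hAL hfar ω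
    calc |g J| * |gE x J L ω f - ∫ σ, f σ ∂π| ≤ 1 * |gE x J L ω f - ∫ σ, f σ ∂π| :=
          mul_le_mul_of_nonneg_right (hg1 J) (abs_nonneg _)
      _ = |gE x J L ω f - ∫ σ, f σ ∂π| := one_mul _
      _ ≤ _ := h2
  rw [Real.norm_eq_abs] at h1
  refine h1.trans ?_
  rw [integral_mul_const]
  have := hE.mean_real A hA
  gcongr

end env

/-- the averaged correlation of two neighbours, times the coupling -/
noncomputable def Hxy (x y : Site d) (m : ℕ) (β : ℝ) : ℝ :=
  Hm (fun J => Jc J x y) (pr x y) (s2 x y) m β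

section energy

variable (hc : 0 < c) (hd : 1 ≤ d) (hE : Env c d K)

include hc hd hE in
theorem Hxy_fin (x y : Site d) (β : ℝ) (hβ : |β| < c / √(d : ℝ) / 2) (L : Finset (Site d))
    (r : ℕ) (hx : x ∈ L) (hy : y ∈ L) (hfx : ∀ z, z ∉ L → r ≤ dist1 x z)
    (hfy : ∀ z, z ∉ L → r ≤ dist1 y z) (ω : Site d → Bool) :
    |(∫ J, Jc J x y * gE β J L ω (s2 x y) ∂(couplingLaw d)) - Hxy x y 0 β| ≤
      2 * 64800 ^ d * Real.exp (-((r : ℝ) / 9)) := by
  have h := Hm_fin hc hd hE (fun J => Jc J x y) (Jc_dep x y).meas (fun J => abs_Jc_one J x y)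
    (pr x y) (pr_ne x y) (s2 x y) (abs_s2 x y) (s2_local x y) β hβ L r
    (by
      intro z hz
      rcases (mem_pr x y z).1 hz with rfl | rfl
      · exact hx
      · exact hy)
    (by
      intro a ha z hz
      rcases (mem_pr x y a).1 ha with rfl | rfl
      · exact hfx z hz
      · exact hfy z hz) ω
  refine h.trans ?_
  have h2 : ((pr x y).card : ℝ) ≤ 2 := by exact_mod_cast card_pr_le x y
  calc (64800 : ℝ) ^ d * (pr x y).card * Real.exp (-((r : ℝ) / 9))
      ≤ 64800 ^ d * 2 * Real.exp (-((r : ℝ) / 9)) := by gcongr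
    _ = _ := by ring

theorem shF_ball (v : Site d) (r : ℕ) : shF v (ball 0 r) = ball v r := by
  ext z
  rw [mem_shF, mem_ball_iff, mem_ball_iff, ← dist1_add 0 (z - v) v]
  simp

theorem s2_shift (v y : Site d) :
    (fun σ : Site d → Bool => s2 0 y (fun x => σ (x + v))) = s2 v (y + v) := by
  funext σ
  simp [s2]

theorem dist1_tri (x y z : Site d) : dist1 x z ≤ dist1 x y + dist1 y z := by
  unfold dist1
  rw [← Finset.sum_add_distrib]
  apply Finset.sum_le_sum
  intro i _
  omega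

theorem far_ball (x : Site d) (r : ℕ) (z : Site d) (hz : z ∉ ball x r) : r ≤ dist1 x z := by
  by_contra h
  exact hz ((mem_ball_iff x z r).2 (by omega))

include hc hd hE in
/-- translation invariance -/
theorem Hxy_shift (v y : Site d) (hy : y ∈ nbr (0 : Site d)) (β : ℝ)
    (hβ : |β| < c / √(d : ℝ) / 2) : Hxy v (y + v) 0 β = Hxy 0 y 0 β := by
  have key : ∀ r : ℕ, |Hxy v (y + v) 0 β - Hxy 0 y 0 β| ≤
      4 * 64800 ^ d * Real.exp (-((r : ℝ) / 9)) := by
    intro r
    have hy1 : dist1 0 y = 1 := (mem_nbr_iff 0 y).1 hy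
    have hyv : dist1 v (y + v) = 1 := by
      have := dist1_add 0 y v
      rw [zero_add] at this
      rw [this, hy1]
    have hfar : ∀ x z : Site d, dist1 x z = 1 → ∀ w, w ∉ ball x (r + 1) → r ≤ dist1 z w := by
      intro x z hxz w hw
      have h1 := far_ball x (r + 1) w hw
      have h2 := dist1_tri x z w
      omega
    have h1 := Hxy_fin hc hd hE v (y + v) β hβ (ball v (r + 1)) r
      ((mem_ball_iff _ _ _).2 (by rw [dist1_self]; omega))
      ((mem_ball_iff _ _ _).2 (by rw [hyv]; omega))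
      (fun z hz => by have := far_ball v (r + 1) z hz; omega)
      (hfar v (y + v) hyv) (fun _ => true)
    have h2 := Hxy_fin hc hd hE 0 y β hβ (ball 0 (r + 1)) r
      ((mem_ball_iff _ _ _).2 (by rw [dist1_self]; omega))
      ((mem_ball_iff _ _ _).2 (by rw [hy1]; omega))
      (fun z hz => by have := far_ball 0 (r + 1) z hz; omega)
      (hfar 0 y hy1) (fun _ => true)
    have e : ∫ J, Jc J 0 y * gE β J (ball 0 (r + 1)) (fun _ => true) (s2 0 y) ∂(couplingLaw d) =
        ∫ J, Jc J v (y + v) * gE β J (ball v (r + 1)) (fun _ => true) (s2 v (y + v))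
          ∂(couplingLaw d) := by
      rw [← integral_sh v (fun J => Jc J 0 y * gE β J (ball 0 (r + 1)) (fun _ => true) (s2 0 y))]
      congr 1
      funext J
      rw [gE_sh, shF_ball, s2_shift, Jc_sh, zero_add]
    rw [e] at h2
    rw [abs_le] at h1 h2 ⊢
    constructor <;> linarith [h1.1, h1.2, h2.1, h2.2]
  have hlim : Tendsto (fun r : ℕ => 4 * 64800 ^ d * Real.exp (-((r : ℝ) / 9))) atTop (𝓝 0) := by
    have h3 : Tendsto (fun n : ℕ => (n : ℝ) / 9) atTop atTop :=
      tendsto_natCast_atTop_atTop.atTop_div_const (by norm_num)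
    have h4 : Tendsto (fun n : ℕ => Real.exp (-((n : ℝ) / 9))) atTop (𝓝 0) :=
      Real.tendsto_exp_neg_atTop_nhds_zero.comp h3
    have := h4.const_mul (4 * 64800 ^ d)
    rwa [mul_zero] at this
  have h5 : |Hxy v (y + v) 0 β - Hxy 0 y 0 β| ≤ 0 := ge_of_tendsto' hlim key
  exact sub_eq_zero.1 (abs_nonpos_iff.1 h5)

/-- the averaged energy per site and its derivatives -/
noncomputable def hEn (d : ℕ) (m : ℕ) (β : ℝ) : ℝ := ∑ y ∈ nbr (0 : Site d), Hxy 0 y m β / 2

include hc hd hE in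
theorem hEn_deriv (m : ℕ) (β : ℝ) (hβ : |β| < c / √(d : ℝ) / 2) :
    HasDerivAt (hEn d m) (hEn d (m + 1) β) β := by
  unfold hEn
  refine HasDerivAt.fun_sum fun y _ => HasDerivAt.div_const ?_ 2
  exact Hm_deriv hc hd hE (fun J => Jc J 0 y) (Jc_dep 0 y).meas (fun J => abs_Jc_one J 0 y)
    (pr 0 y) (pr_ne 0 y) (s2 0 y) (abs_s2 0 y) (s2_local 0 y) m β hβ

include hc hd hE in
theorem hEn_le (m : ℕ) (β : ℝ) (hβ : |β| < c / √(d : ℝ) / 2) :
    |hEn d m β| ≤ 3 ^ d * (148 * 64800 ^ d) * Bm c d 2 m := by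
  unfold hEn
  refine (Finset.abs_sum_le_sum_abs _ _).trans ?_
  have hterm : ∀ y ∈ nbr (0 : Site d), |Hxy 0 y m β / 2| ≤ (148 * 64800 ^ d) * Bm c d 2 m := by
    intro y _
    have h := Hm_le hc hd hE (fun J => Jc J 0 y) (fun J => abs_Jc_one J 0 y)
      (pr 0 y) (pr_ne 0 y) (s2 0 y) (abs_s2 0 y) (s2_local 0 y) m β hβ
    have h2 : ((pr 0 y).card : ℝ) ≤ 2 := by exact_mod_cast card_pr_le 0 y
    have h3 : Bm c d (pr 0 y).card m ≤ Bm c d 2 m := by
      unfold Bm
      have : (0 : ℝ) ≤ (2160 * (1 + 1 / c) * d) ^ d := by positivity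
      push_cast
      gcongr
    have h0 := Bm_nonneg (d := d) hc (pr 0 y).card m
    have h4 : |Hxy 0 y m β| ≤ 148 * (64800 ^ d * 2) * Bm c d 2 m := by
      unfold Hxy
      refine h.trans ?_
      gcongr
    rw [abs_div, abs_of_pos (by norm_num : (0 : ℝ) < 2)]
    linarith
  refine (Finset.sum_le_sum hterm).trans ?_
  rw [Finset.sum_const, nsmul_eq_mul]
  have h5 : ((nbr (0 : Site d)).card : ℝ) ≤ 3 ^ d := by exact_mod_cast card_nbr_le (0 : Site d)
  have h6 := Bm_nonneg (d := d) hc 2 m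
  calc ((nbr (0 : Site d)).card : ℝ) * (148 * 64800 ^ d * Bm c d 2 m)
      ≤ 3 ^ d * (148 * 64800 ^ d * Bm c d 2 m) := by gcongr
    _ = _ := by ring

end energy

end Pool.Agent.U475.EA
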