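import Pool.Agent.U475.EA.S.Free

/-!
# Edwards–Anderson model: almost sure convergence of the free energy
-/

set_option autoImplicit false

open MeasureTheory Filter Set
open scoped ENNReal Topology Nat

namespace Pool.Agent.U475.EA

open Pool.H47EA

variable {d : ℕ} {c : ℝ} {K : Finset (Site d) → Coupling d → ℝ≥0∞}

theorem ae_tendsto_zero_of_sq {Ω : Type} [MeasurableSpace Ω] (μ : Measure Ω) (X : ℕ → Ω → ℝ)
    (hX : ∀ n, Integrable (fun w => X n w ^ 2) μ) (a : ℕ → ℝ) (ha : Summable a)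
    (h : ∀ n, ∫ w, X n w ^ 2 ∂μ ≤ a n) : ∀ᵐ w ∂μ, Tendsto (fun n => X n w) atTop (𝓝 0) := by
  have h0 : ∀ n, 0 ≤ a n := fun n => (integral_nonneg fun w => sq_nonneg _).trans (h n)
  have h1 : ∫⁻ w, ∑' n, ENNReal.ofReal (X n w ^ 2) ∂μ ≠ ∞ := by
    rw [lintegral_tsum fun n => (hX n).aemeasurable.ennreal_ofReal]
    have h2 : ∀ n, ∫⁻ w, ENNReal.ofReal (X n w ^ 2) ∂μ ≤ ENNReal.ofReal (a n) := by
      intro n
      rw [← ofReal_integral_eq_lintegral_ofReal (hX n) (ae_of_all _ fun w => sq_nonneg _)]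
      exact ENNReal.ofReal_le_ofReal (h n)
    refine ((ENNReal.tsum_le_tsum h2).trans_lt ?_).ne
    rw [← ENNReal.ofReal_tsum_of_nonneg h0 ha]
    exact ENNReal.ofReal_lt_top
  have h3 : AEMeasurable (fun w => ∑' n, ENNReal.ofReal (X n w ^ 2)) μ :=
    AEMeasurable.tsum fun n => (hX n).aemeasurable.ennreal_ofReal
  filter_upwards [ae_lt_top' h3 h1] with w hw
  have h4 := ENNReal.tendsto_atTop_zero_of_tsum_ne_top hw.ne
  have h5 : Tendsto (fun n => X n w ^ 2) atTop (𝓝 0) := by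
    have h6 := (ENNReal.tendsto_toReal ENNReal.zero_ne_top).comp h4
    simpa [Function.comp_def, ENNReal.toReal_ofReal (sq_nonneg _)] using h6
  have h7 : Tendsto (fun n => √(X n w ^ 2)) atTop (𝓝 0) := by
    have := (Real.continuous_sqrt.tendsto 0).comp h5
    simpa [Function.comp_def] using this
  simp only [Real.sqrt_sq_eq_abs] at h7
  exact (tendsto_zero_iff_abs_tendsto_zero _).2 h7

/-- the free energy of a box -/
noncomputable def Pn (β : ℝ) (J : Coupling d) (n : ℕ) (ω : Site d → Bool) : ℝ :=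
  Real.log (Zp β J (box d n) ω) / (box d n).card

theorem Pn_var (β : ℝ) (n : ℕ) (ω : Site d → Bool) :
    ∫ J, (Pn β J n ω - En d n ω β) ^ 2 ∂(couplingLaw d) ≤ 3 ^ d * β ^ 2 / (box d n).card := by
  have h := log_Zp_var β (box d n) ω
  have hpos := card_box_pos (d := d) n
  have e : ∀ J, (Pn β J n ω - En d n ω β) ^ 2 =
      (Real.log (Zp β J (box d n) ω) - ∫ J', Real.log (Zp β J' (box d n) ω) ∂(couplingLaw d)) ^ 2 /
        ((box d n).card : ℝ) ^ 2 := by
    intro J
    unfold Pn En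
    rw [← sub_div, div_pow]
  simp only [e]
  rw [integral_div, div_le_iff₀ (by positivity)]
  refine h.trans (le_of_eq ?_)
  field_simp

theorem Pn_sq_int (β : ℝ) (n : ℕ) (ω : Site d → Bool) :
    Integrable (fun J => (Pn β J n ω - En d n ω β) ^ 2) (couplingLaw d) := by
  have : DepOn (edF (box d n)) (fun J => (Pn β J n ω - En d n ω β) ^ 2) := by
    intro J J' h
    have := log_Zp_dep β (box d n) ω J J' h
    simp only at this ⊢
    unfold Pn
    rw [this]
  exact this.integrable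

theorem Pn_ae (hd : 2 ≤ d) (β : ℝ) (ω : Site d → Bool) :
    ∀ᵐ J ∂(couplingLaw d), Tendsto (fun n => Pn β J n ω - En d n ω β) atTop (𝓝 0) := by
  have hs : Summable fun n : ℕ => 3 ^ d * β ^ 2 * (1 / ((n + 1 : ℕ) : ℝ) ^ 2) :=
    ((summable_nat_add_iff 1).2 (Real.summable_one_div_nat_pow.2 (by norm_num : 1 < 2))).mul_left _
  refine ae_tendsto_zero_of_sq _ _ (fun n => Pn_sq_int β n ω) _ hs fun n => ?_
  refine (Pn_var β n ω).trans ?_
  rw [mul_one_div]
  have h1 : ((n + 1 : ℕ) : ℝ) ^ 2 ≤ (box d n).card := by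
    rw [card_box]
    have : (n + 1) ^ 2 ≤ (2 * n + 1) ^ d :=
      (Nat.pow_le_pow_left (by omega) 2).trans (Nat.pow_le_pow_right (by omega) hd)
    exact_mod_cast this
  gcongr

theorem ham_bdry (J : Coupling d) (L I : Finset (Site d)) (hI : I ⊆ L)
    (hn : ∀ x ∈ I, ∀ y ∈ nbr x, y ∈ L) (η : L → Bool) (ω ω' : Site d → Bool) :
    |ham J L (glue L η ω) - ham J L (glue L η ω')| ≤ ((L.card : ℝ) - I.card) * (2 * 3 ^ d) := by
  classical
  rw [ham_eq_sum, ham_eq_sum, ← Finset.sum_sub_distrib]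
  refine (Finset.abs_sum_le_sum_abs _ _).trans ?_
  rw [← Finset.sum_sdiff hI]
  have hcard : ((L \ I).card : ℝ) = (L.card : ℝ) - I.card := by
    rw [Finset.card_sdiff_of_subset hI, Nat.cast_sub (Finset.card_le_card hI)]
  have hg : ∀ x ∈ L, glue L η ω x = glue L η ω' x := fun x hx => by
    rw [Basic.glue_mem η ω hx, Basic.glue_mem η ω' hx]
  have h1 : ∑ x ∈ I, |∑ y ∈ nbr x, (if y ∈ L then Jc J x y * sg (glue L η ω x) *
        sg (glue L η ω y) / 2 else Jc J x y * sg (glue L η ω x) * sg (glue L η ω y)) -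
      ∑ y ∈ nbr x, (if y ∈ L then Jc J x y * sg (glue L η ω' x) *
        sg (glue L η ω' y) / 2 else Jc J x y * sg (glue L η ω' x) * sg (glue L η ω' y))| = 0 := by
    refine Finset.sum_eq_zero fun x hx => ?_
    rw [abs_eq_zero, sub_eq_zero]
    refine Finset.sum_congr rfl fun y hy => ?_
    rw [hg x (hI hx), hg y (hn x hx y hy)]
  rw [h1, add_zero]
  have h2 : ∀ x ∈ L \ I, |∑ y ∈ nbr x, (if y ∈ L then Jc J x y * sg (glue L η ω x) *
        sg (glue L η ω y) / 2 else Jc J x y * sg (glue L η ω x) * sg (glue L η ω y)) -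
      ∑ y ∈ nbr x, (if y ∈ L then Jc J x y * sg (glue L η ω' x) *
        sg (glue L η ω' y) / 2 else Jc J x y * sg (glue L η ω' x) * sg (glue L η ω' y))| ≤
      2 * 3 ^ d := by
    intro x _
    rw [← Finset.sum_sub_distrib]
    refine (Finset.abs_sum_le_sum_abs _ _).trans ?_
    have h3 : ∀ τ : Site d → Bool, ∀ y, |(if y ∈ L then Jc J x y * sg (τ x) * sg (τ y) / 2
        else Jc J x y * sg (τ x) * sg (τ y))| ≤ 1 := by
      intro τ y
      have h4 : |Jc J x y * sg (τ x) * sg (τ y)| ≤ 1 := by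
        rw [abs_mul, abs_mul, abs_sg_one, abs_sg_one, mul_one, mul_one]
        exact abs_Jc_one J x y
      split_ifs
      · rw [abs_div, abs_of_pos (by norm_num : (0 : ℝ) < 2)]
        linarith
      · exact h4
    have h5 : ∀ y ∈ nbr x, |(if y ∈ L then Jc J x y * sg (glue L η ω x) *
        sg (glue L η ω y) / 2 else Jc J x y * sg (glue L η ω x) * sg (glue L η ω y)) -
        (if y ∈ L then Jc J x y * sg (glue L η ω' x) *
        sg (glue L η ω' y) / 2 else Jc J x y * sg (glue L η ω' x) * sg (glue L η ω' y))| ≤ 2 := by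
      intro y _
      have h6 := abs_le.1 (h3 (glue L η ω) y)
      have h7 := abs_le.1 (h3 (glue L η ω') y)
      rw [abs_le]
      constructor <;> linarith [h6.1, h6.2, h7.1, h7.2]
    refine (Finset.sum_le_sum h5).trans ?_
    rw [Finset.sum_const, nsmul_eq_mul, mul_comm]
    have : ((nbr x).card : ℝ) ≤ 3 ^ d := by exact_mod_cast card_nbr_le x
    gcongr
  refine (Finset.sum_le_sum h2).trans ?_
  rw [Finset.sum_const, nsmul_eq_mul, hcard]

theorem log_Zp_bdry (β : ℝ) (J : Coupling d) (L I : Finset (Site d)) (hI : I ⊆ L)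
    (hn : ∀ x ∈ I, ∀ y ∈ nbr x, y ∈ L) (ω ω' : Site d → Bool) :
    |Real.log (Zp β J L ω) - Real.log (Zp β J L ω')| ≤
      |β| * (((L.card : ℝ) - I.card) * (2 * 3 ^ d)) := by
  unfold Zp
  apply log_sum_exp_le
  intro η
  rw [← mul_sub, abs_mul]
  exact mul_le_mul_of_nonneg_left (ham_bdry J L I hI hn η ω ω') (abs_nonneg _)

theorem Pn_bdry (β : ℝ) (J : Coupling d) (n : ℕ) (ω ω' : Site d → Bool) :
    |Pn β J (n + 1) ω - Pn β J (n + 1) ω'| ≤
      |β| * (2 * 3 ^ d) * (1 - ((box d n).card : ℝ) / (box d (n + 1)).card) := by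
  have hpos := card_box_pos (d := d) (n + 1)
  have h := log_Zp_bdry β J (box d (n + 1)) (box d n) (box_mono (Nat.le_succ n)) (by
    intro x hx y hy
    by_contra hcon
    have h1 := box_far (r := 1) le_rfl x hx y hcon
    have h2 := (mem_nbr_iff x y).1 hy
    omega) ω ω'
  unfold Pn
  rw [← sub_div, abs_div, abs_of_pos hpos, div_le_iff₀ hpos]
  refine h.trans (le_of_eq ?_)
  field_simp

theorem Pn_lip (β β' : ℝ) (J : Coupling d) (n : ℕ) (ω : Site d → Bool) :
    |Pn β J n ω - Pn β' J n ω| ≤ |β - β'| * 3 ^ d := by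
  have hpos := card_box_pos (d := d) n
  have h := log_Zp_beta β β' J (box d n) ω
  unfold Pn
  rw [← sub_div, abs_div, abs_of_pos hpos, div_le_iff₀ hpos]
  refine h.trans (le_of_eq ?_)
  ring

section main

variable (hc : 0 < c) (hd : 2 ≤ d) (hE : Env c d K)

include hc hd hE in
/-- almost sure convergence of the free energy, for all inverse temperatures and boundary
conditions simultaneously -/
theorem free_ae : ∀ᵐ J ∂(couplingLaw d), ∀ β : ℝ, |β| < c / √(d : ℝ) / 2 →
    ∀ ω : ℕ → Site d → Bool, Tendsto (fun n => Pn β J n (ω n)) atTop (𝓝 (Fe d β)) := by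
  have hd1 : 1 ≤ d := by omega
  have h1 : ∀ᵐ J ∂(couplingLaw d), ∀ q : ℚ,
      Tendsto (fun n => Pn (q : ℝ) J n (fun _ => true) - En d n (fun _ => true) (q : ℝ)) atTop
        (𝓝 0) := by
    rw [ae_all_iff]
    exact fun q => Pn_ae hd q _
  filter_upwards [h1] with J hJ β hβ ω
  have hJ' : ∀ q : ℚ, |(q : ℝ)| < c / √(d : ℝ) / 2 →
      Tendsto (fun n => Pn (q : ℝ) J n (fun _ => true)) atTop (𝓝 (Fe d q)) := by
    intro q hq
    have h2 : Tendsto (fun n => En d n (fun _ => true) (q : ℝ)) atTop (𝓝 (Fe d q)) := by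
      rw [Metric.tendsto_atTop]
      intro ε hε
      obtain ⟨N, hN⟩ := En_close hc hd1 hE (ε / (2 * (|(q : ℝ)| + 1))) (by positivity)
      refine ⟨N, fun n hn => ?_⟩
      rw [Real.dist_eq]
      refine (hN n hn _ q hq).trans_lt ?_
      have h3 : 0 ≤ |(q : ℝ)| := abs_nonneg _
      rw [div_mul_eq_mul_div, div_lt_iff₀ (by positivity)]
      nlinarith
    have := (hJ q).add h2
    simpa using this
  have hcF : ContinuousAt (Fe d) β := (Fe_deriv hc hd1 hE β hβ).continuousAt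
  rw [Metric.tendsto_atTop]
  intro ε hε
  obtain ⟨δ, hδ, hδF⟩ := Metric.continuousAt_iff.1 hcF (ε / 4) (by positivity)
  -- a rational inverse temperature
  set η : ℝ := min δ (min (ε / (4 * 3 ^ d)) (c / √(d : ℝ) / 2 - |β|)) with hη
  have hη0 : 0 < η := lt_min hδ (lt_min (by positivity) (by linarith))
  obtain ⟨q, hq1, hq2⟩ := exists_rat_btwn (show β < β + η by linarith)
  have hqβ : |(q : ℝ) - β| < η := by rw [abs_lt]; constructor <;> linarith
  have hqb : |(q : ℝ)| < c / √(d : ℝ) / 2 := by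
    have h3 : η ≤ c / √(d : ℝ) / 2 - |β| := (min_le_right _ _).trans (min_le_right _ _)
    have h4 : |(q : ℝ)| ≤ |(q : ℝ) - β| + |β| := by
      calc |(q : ℝ)| = |((q : ℝ) - β) + β| := by ring_nf
        _ ≤ _ := abs_add_le _ _
    linarith
  have hF : |Fe d q - Fe d β| < ε / 4 := by
    have := hδF (show dist (q : ℝ) β < δ by
      rw [Real.dist_eq]; exact hqβ.trans_le (min_le_left _ _))
    rwa [Real.dist_eq] at this
  obtain ⟨N₁, hN₁⟩ := Metric.tendsto_atTop.1 (hJ' q hqb) (ε / 4) (by positivity)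
  have h5 : Tendsto (fun n : ℕ => |β| * (2 * 3 ^ d) *
      (1 - ((box d n).card : ℝ) / (box d (n + 1)).card)) atTop (𝓝 0) := by
    have := (frac_tendsto d 1).const_mul (|β| * (2 * 3 ^ d))
    rwa [mul_zero] at this
  obtain ⟨N₂, hN₂⟩ := (h5.eventually (gt_mem_nhds (show 0 < ε / 4 by positivity))).exists_forall_of_atTop
  refine ⟨max N₁ (N₂ + 1), fun n hn => ?_⟩
  obtain ⟨m, rfl⟩ : ∃ m, n = m + 1 := ⟨n - 1, by
    have := (le_max_right N₁ (N₂ + 1)).trans hn
    omega⟩
  have hm : N₂ ≤ m := by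
    have := (le_max_right N₁ (N₂ + 1)).trans hn
    omega
  have a1 := (Pn_bdry β J m (ω (m + 1)) (fun _ => true)).trans_lt (hN₂ m hm)
  have a2 : |Pn β J (m + 1) (fun _ => true) - Pn (q : ℝ) J (m + 1) (fun _ => true)| < ε / 4 := by
    refine (Pn_lip β q J (m + 1) _).trans_lt ?_
    rw [abs_sub_comm]
    have h6 : η ≤ ε / (4 * 3 ^ d) := (min_le_right _ _).trans (min_le_left _ _)
    have h7 := hqβ.trans_le h6
    rw [lt_div_iff₀ (by positivity)] at h7
    linarith
  have a3 := hN₁ (m + 1) ((le_max_left _ _).trans hn)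
  rw [Real.dist_eq] at a3 ⊢
  have b1 := abs_lt.1 a1
  have b2 := abs_lt.1 a2
  have b3 := abs_lt.1 a3
  have b4 := abs_lt.1 hF
  rw [abs_lt]
  constructor <;> linarith [b1.1, b1.2, b2.1, b2.2, b3.1, b3.2, b4.1, b4.2]

end main

end Pool.Agent.U475.EA
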