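import Pool.Agent.U475.EA.S.Logz

/-!
# Edwards–Anderson model: the averaged free energy
-/

set_option autoImplicit false

open MeasureTheory Filter Set
open scoped ENNReal Topology Nat

namespace Pool.Agent.U475.EA

open Pool.H47EA

variable {d : ℕ} {c : ℝ} {K : Finset (Site d) → Coupling d → ℝ≥0∞}

/-- the box `[-n, n] ^ d` -/
noncomputable def box (d n : ℕ) : Finset (Site d) := Finset.Icc (fun _ => -(n : ℤ)) (fun _ => (n : ℤ))

theorem mem_box (n : ℕ) (x : Site d) : x ∈ box d n ↔ ∀ i, -(n : ℤ) ≤ x i ∧ x i ≤ n := by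
  unfold box
  rw [Finset.mem_Icc]
  constructor
  · exact fun h i => ⟨h.1 i, h.2 i⟩
  · exact fun h => ⟨fun i => (h i).1, fun i => (h i).2⟩

theorem card_box (n : ℕ) : (box d n).card = (2 * n + 1) ^ d := by
  unfold box
  rw [Pi.card_Icc]
  simp only [Int.card_Icc]
  have : ((n : ℤ) + 1 - -(n : ℤ)).toNat = 2 * n + 1 := by omega
  rw [this]
  simp

theorem box_mono {m n : ℕ} (h : m ≤ n) : box d m ⊆ box d n := by
  intro x hx
  rw [mem_box] at hx ⊢
  intro i
  have := hx i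
  omega

theorem box_far {m n r : ℕ} (h : m + r ≤ n) (x : Site d) (hx : x ∈ box d m) (z : Site d)
    (hz : z ∉ box d n) : r + 1 ≤ dist1 x z := by
  rw [mem_box] at hx hz
  push Not at hz
  obtain ⟨i, hi⟩ := hz
  have h1 : (x i - z i).natAbs ≤ dist1 x z :=
    Finset.single_le_sum (f := fun i => (x i - z i).natAbs) (fun _ _ => Nat.zero_le _)
      (Finset.mem_univ i)
  have h2 := hx i
  by_cases h3 : -(n : ℤ) ≤ z i
  · have := hi h3
    omega
  · omega

/-- the fraction of the sites of the box near its boundary tends to zero -/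
theorem frac_tendsto (d r : ℕ) :
    Tendsto (fun n : ℕ => 1 - ((box d n).card : ℝ) / (box d (n + r)).card) atTop (𝓝 0) := by
  have h1 : Tendsto (fun n : ℕ => (2 * (r : ℝ)) / (2 * ((n : ℝ) + r) + 1)) atTop (𝓝 0) := by
    refine Tendsto.div_atTop tendsto_const_nhds ?_
    refine tendsto_atTop_add_const_right _ _ ?_
    refine Tendsto.const_mul_atTop (by norm_num) ?_
    exact tendsto_atTop_add_const_right _ _ tendsto_natCast_atTop_atTop
  have h2 : Tendsto (fun n : ℕ => 1 - (1 - (2 * (r : ℝ)) / (2 * ((n : ℝ) + r) + 1)) ^ d) atTop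
      (𝓝 0) := by
    have := ((h1.const_sub 1).pow d).const_sub 1
    simpa using this
  refine h2.congr fun n => ?_
  rw [card_box, card_box]
  push_cast
  rw [← div_pow]
  congr 2
  have : (2 * ((n : ℝ) + r) + 1) ≠ 0 := by positivity
  field_simp
  ring

section main

variable (hc : 0 < c) (hd : 1 ≤ d) (hE : Env c d K)

/-- the contribution of one site to the averaged energy -/
noncomputable def Tx (β : ℝ) (L : Finset (Site d)) (ω : Site d → Bool) (x : Site d) : ℝ :=
  ∑ y ∈ nbr x, (if y ∈ L then 1 / 2 else 1) *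
    ∫ J, Jc J x y * gE β J L ω (s2 x y) ∂(couplingLaw d)

theorem Jg_int (β : ℝ) (L : Finset (Site d)) (ω : Site d → Bool) (x y : Site d) :
    Integrable (fun J => Jc J x y * gE β J L ω (s2 x y)) (couplingLaw d) := by
  refine Integrable.of_bound ((Jc_dep x y).meas.mul (gE_dep β L ω (s2 x y)).meas).aestronglyMeasurable
    1 (ae_of_all _ fun J => ?_)
  rw [Real.norm_eq_abs, abs_mul]
  calc |Jc J x y| * |gE β J L ω (s2 x y)| ≤ 1 * 1 :=
        mul_le_mul (abs_Jc_one J x y) (abs_gE_le β J L ω _ 1 (abs_s2 x y)) (abs_nonneg _)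
          zero_le_one
    _ = 1 := one_mul 1

theorem Jg_le (β : ℝ) (L : Finset (Site d)) (ω : Site d → Bool) (x y : Site d) :
    |∫ J, Jc J x y * gE β J L ω (s2 x y) ∂(couplingLaw d)| ≤ 1 := by
  have := norm_integral_le_of_norm_le_const (μ := couplingLaw d)
    (f := fun J => Jc J x y * gE β J L ω (s2 x y)) (C := 1) (ae_of_all _ fun J => by
      rw [Real.norm_eq_abs, abs_mul]
      calc |Jc J x y| * |gE β J L ω (s2 x y)| ≤ 1 * 1 :=
            mul_le_mul (abs_Jc_one J x y) (abs_gE_le β J L ω _ 1 (abs_s2 x y)) (abs_nonneg _)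
              zero_le_one
        _ = 1 := one_mul 1)
  simpa using this

theorem energy_eq (β : ℝ) (L : Finset (Site d)) (ω : Site d → Bool) :
    ∫ J, gE β J L ω (ham J L) ∂(couplingLaw d) = ∑ x ∈ L, Tx β L ω x := by
  simp only [gE_ham]
  rw [integral_finsetSum]
  · refine Finset.sum_congr rfl fun x _ => ?_
    rw [integral_finsetSum]
    · unfold Tx
      refine Finset.sum_congr rfl fun y _ => ?_
      rw [integral_const_mul]
    · exact fun y _ => (Jg_int β L ω x y).const_mul _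
  · exact fun x _ => integrable_finsetSum _ fun y _ => (Jg_int β L ω x y).const_mul _

theorem Tx_le (β : ℝ) (L : Finset (Site d)) (ω : Site d → Bool) (x : Site d) :
    |Tx β L ω x| ≤ 3 ^ d := by
  unfold Tx
  refine (Finset.abs_sum_le_sum_abs _ _).trans ?_
  have h1 : ∀ y ∈ nbr x, |(if y ∈ L then (1 / 2 : ℝ) else 1) *
      ∫ J, Jc J x y * gE β J L ω (s2 x y) ∂(couplingLaw d)| ≤ 1 := by
    intro y _
    rw [abs_mul]
    have h2 : |(if y ∈ L then (1 / 2 : ℝ) else 1)| ≤ 1 := by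
      split_ifs
      · rw [abs_of_pos] <;> norm_num
      · norm_num
    calc _ ≤ (1 : ℝ) * 1 := mul_le_mul h2 (Jg_le β L ω x y) (abs_nonneg _) zero_le_one
      _ = 1 := one_mul 1
  refine (Finset.sum_le_sum h1).trans ?_
  rw [Finset.sum_const, nsmul_eq_mul, mul_one]
  exact_mod_cast card_nbr_le x

include hc hd hE in
theorem hEn_at (x : Site d) (β : ℝ) (hβ : |β| < c / √(d : ℝ) / 2) :
    hEn d 0 β = ∑ y ∈ nbr x, Hxy x y 0 β / 2 := by
  have h := nbr_add (0 : Site d) x
  rw [zero_add] at h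
  rw [h, Finset.sum_map]
  unfold hEn
  refine Finset.sum_congr rfl fun y hy => ?_
  rw [addRightEmbedding_apply, Hxy_shift hc hd hE x y hy β hβ]

include hc hd hE in
theorem Tx_inner (β : ℝ) (hβ : |β| < c / √(d : ℝ) / 2) (L : Finset (Site d))
    (ω : Site d → Bool) (x : Site d) (hx : x ∈ L) (r : ℕ) (hr : 1 ≤ r)
    (hfar : ∀ z, z ∉ L → r + 1 ≤ dist1 x z) :
    |Tx β L ω x - hEn d 0 β| ≤ 3 ^ d * (64800 ^ d * Real.exp (-((r : ℝ) / 9))) := by
  rw [hEn_at hc hd hE x β hβ]
  unfold Tx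
  rw [← Finset.sum_sub_distrib]
  refine (Finset.abs_sum_le_sum_abs _ _).trans ?_
  have h1 : ∀ y ∈ nbr x, |(if y ∈ L then (1 / 2 : ℝ) else 1) *
      ∫ J, Jc J x y * gE β J L ω (s2 x y) ∂(couplingLaw d) - Hxy x y 0 β / 2| ≤
        64800 ^ d * Real.exp (-((r : ℝ) / 9)) := by
    intro y hy
    have hxy : dist1 x y = 1 := (mem_nbr_iff x y).1 hy
    have hyL : y ∈ L := by
      by_contra h
      have := hfar y h
      omega
    have hfy : ∀ z, z ∉ L → r ≤ dist1 y z := by
      intro z hz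
      have h1 := hfar z hz
      have h2 := dist1_tri x y z
      omega
    have h2 := Hxy_fin hc hd hE x y β hβ L r hx hyL (fun z hz => by have := hfar z hz; omega)
      hfy ω
    rw [if_pos hyL, show (1 / 2 : ℝ) * (∫ J, Jc J x y * gE β J L ω (s2 x y) ∂(couplingLaw d)) -
      Hxy x y 0 β / 2 = (1 / 2) * ((∫ J, Jc J x y * gE β J L ω (s2 x y) ∂(couplingLaw d)) -
        Hxy x y 0 β) by ring, abs_mul, abs_of_pos (by norm_num : (0 : ℝ) < 1 / 2)]
    linarith
  refine (Finset.sum_le_sum h1).trans ?_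
  rw [Finset.sum_const, nsmul_eq_mul]
  have h5 : ((nbr x).card : ℝ) ≤ 3 ^ d := by exact_mod_cast card_nbr_le x
  gcongr

theorem Bm_zero (n : ℕ) : Bm c d n 0 = 1 := by simp [Bm]

include hc hd hE in
/-- the averaged energy of a finite volume is close to `hEn` per site -/
theorem energy_close (β : ℝ) (hβ : |β| < c / √(d : ℝ) / 2) (L I : Finset (Site d)) (hI : I ⊆ L)
    (ω : Site d → Bool) (r : ℕ) (hr : 1 ≤ r)
    (hfar : ∀ x ∈ I, ∀ z, z ∉ L → r + 1 ≤ dist1 x z) :
    |∫ J, gE β J L ω (ham J L) ∂(couplingLaw d) - L.card * hEn d 0 β| ≤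
      L.card * (3 ^ d * (64800 ^ d * Real.exp (-((r : ℝ) / 9)))) +
        ((L.card : ℝ) - I.card) * (3 ^ d * (149 * 64800 ^ d)) := by
  classical
  rw [energy_eq]
  have e1 : (L.card : ℝ) * hEn d 0 β = ∑ x ∈ L, hEn d 0 β := by
    rw [Finset.sum_const, nsmul_eq_mul]
  rw [e1, ← Finset.sum_sub_distrib]
  refine (Finset.abs_sum_le_sum_abs _ _).trans ?_
  rw [← Finset.sum_sdiff hI, add_comm]
  have hcard : ((L \ I).card : ℝ) = (L.card : ℝ) - I.card := by
    rw [Finset.card_sdiff_of_subset hI, Nat.cast_sub (Finset.card_le_card hI)]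
  refine add_le_add ?_ ?_
  · refine (Finset.sum_le_sum fun x hx => Tx_inner hc hd hE β hβ L ω x (hI hx) r hr
      (hfar x hx)).trans ?_
    rw [Finset.sum_const, nsmul_eq_mul]
    have : (I.card : ℝ) ≤ L.card := by exact_mod_cast Finset.card_le_card hI
    gcongr
  · have h1 : ∀ x ∈ L \ I, |Tx β L ω x - hEn d 0 β| ≤ 3 ^ d * (149 * 64800 ^ d) := by
      intro x _
      have h2 := Tx_le β L ω x
      have h3 := hEn_le hc hd hE 0 β hβ
      rw [Bm_zero, mul_one] at h3
      have h4 : |Tx β L ω x - hEn d 0 β| ≤ |Tx β L ω x| + |hEn d 0 β| := abs_sub _ _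
      have h5 : (1 : ℝ) ≤ 64800 ^ d := one_le_pow₀ (by norm_num)
      have h6 : (0 : ℝ) < 3 ^ d := by positivity
      nlinarith
    refine (Finset.sum_le_sum h1).trans ?_
    rw [Finset.sum_const, nsmul_eq_mul, hcard]

/-- the averaged free energy of a box -/
noncomputable def En (d n : ℕ) (ω : Site d → Bool) (β : ℝ) : ℝ :=
  (∫ J, Real.log (Zp β J (box d n) ω) ∂(couplingLaw d)) / (box d n).card

/-- its derivative -/
noncomputable def dEn (d n : ℕ) (ω : Site d → Bool) (β : ℝ) : ℝ :=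
  (∫ J, gE β J (box d n) ω (ham J (box d n)) ∂(couplingLaw d)) / (box d n).card

theorem En_deriv (n : ℕ) (ω : Site d → Bool) (β : ℝ) :
    HasDerivAt (En d n ω) (dEn d n ω β) β := (ann_deriv β (box d n) ω).div_const _

theorem card_box_pos (n : ℕ) : (0 : ℝ) < (box d n).card := by
  rw [card_box]; positivity

theorem En_zero (n : ℕ) (ω : Site d → Bool) : En d n ω 0 = Real.log 2 := by
  unfold En
  simp only [log_Zp_zero]
  have := card_box_pos (d := d) n
  simp only [integral_const, smul_eq_mul, probReal_univ, one_mul]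
  field_simp

include hc hd hE in
theorem dEn_close (ε : ℝ) (hε : 0 < ε) : ∃ N : ℕ, ∀ n, N ≤ n → ∀ (ω : Site d → Bool) (β : ℝ),
    |β| < c / √(d : ℝ) / 2 → |dEn d n ω β - hEn d 0 β| ≤ ε := by
  -- choose `r`
  have h3 : Tendsto (fun n : ℕ => (n : ℝ) / 9) atTop atTop :=
    tendsto_natCast_atTop_atTop.atTop_div_const (by norm_num)
  have h4 : Tendsto (fun n : ℕ => Real.exp (-((n : ℝ) / 9))) atTop (𝓝 0) :=
    Real.tendsto_exp_neg_atTop_nhds_zero.comp h3
  have h5 : Tendsto (fun n : ℕ => 3 ^ d * (64800 ^ d * Real.exp (-((n : ℝ) / 9)))) atTop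
      (𝓝 0) := by
    have := (h4.const_mul (64800 ^ d)).const_mul (3 ^ d)
    rwa [mul_zero, mul_zero] at this
  obtain ⟨r, hr1, hr⟩ := ((eventually_ge_atTop 1).and
    (h5.eventually (gt_mem_nhds (half_pos hε)))).exists
  have h6 : Tendsto (fun n : ℕ => (1 - ((box d n).card : ℝ) / (box d (n + r)).card) *
      (3 ^ d * (149 * 64800 ^ d))) atTop (𝓝 0) := by
    have := (frac_tendsto d r).mul_const (3 ^ d * (149 * 64800 ^ d))
    rwa [zero_mul] at this
  obtain ⟨N, hN⟩ := (h6.eventually (gt_mem_nhds (half_pos hε))).exists_forall_of_atTop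
  refine ⟨N + r, fun n hn ω β hβ => ?_⟩
  obtain ⟨m, rfl⟩ : ∃ m, n = m + r := ⟨n - r, by omega⟩
  have h7 := hN m (by omega)
  have hpos := card_box_pos (d := d) (m + r)
  have h8 := energy_close hc hd hE β hβ (box d (m + r)) (box d m) (box_mono (by omega)) ω r hr1
    (fun x hx z hz => box_far le_rfl x hx z hz)
  have e : dEn d (m + r) ω β - hEn d 0 β =
      (∫ J, gE β J (box d (m + r)) ω (ham J (box d (m + r))) ∂(couplingLaw d) -
        (box d (m + r)).card * hEn d 0 β) / (box d (m + r)).card := by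
    unfold dEn
    field_simp
  rw [e, abs_div, abs_of_pos hpos, div_le_iff₀ hpos]
  refine h8.trans ?_
  have e2 : ((box d (m + r)).card : ℝ) - (box d m).card =
      (1 - ((box d m).card : ℝ) / (box d (m + r)).card) * (box d (m + r)).card := by
    field_simp
  rw [e2]
  have h9 : ((box d (m + r)).card : ℝ) * (3 ^ d * (64800 ^ d * Real.exp (-((r : ℝ) / 9)))) ≤
      (box d (m + r)).card * (ε / 2) := by gcongr
  have h10 : (1 - ((box d m).card : ℝ) / (box d (m + r)).card) * (box d (m + r)).card *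
      (3 ^ d * (149 * 64800 ^ d)) ≤ (box d (m + r)).card * (ε / 2) := by
    calc _ = (box d (m + r)).card * ((1 - ((box d m).card : ℝ) / (box d (m + r)).card) *
          (3 ^ d * (149 * 64800 ^ d))) := by ring
      _ ≤ _ := by gcongr
  linarith

/-- the limiting free energy -/
noncomputable def Fe (d : ℕ) (β : ℝ) : ℝ := Real.log 2 + ∫ t in (0 : ℝ)..β, hEn d 0 t

include hc hd hE in
theorem hEn_cont : ContinuousOn (hEn d 0) (Ioo (-(c / √(d : ℝ) / 2)) (c / √(d : ℝ) / 2)) :=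
  fun x hx => (hEn_deriv hc hd hE 0 x ((mem_Ioo_abs _ x).1 hx)).continuousAt.continuousWithinAt

include hc hd hE in
theorem Fe_deriv (β : ℝ) (hβ : |β| < c / √(d : ℝ) / 2) : HasDerivAt (Fe d) (hEn d 0 β) β := by
  have hcont := hEn_cont hc hd hE
  have h0 : (0 : ℝ) ∈ Ioo (-(c / √(d : ℝ) / 2)) (c / √(d : ℝ) / 2) := by
    rw [mem_Ioo_abs, abs_zero]
    exact lt_of_le_of_lt (abs_nonneg β) hβ
  have hβ' := (mem_Ioo_abs _ β).2 hβ
  have hsub : uIcc 0 β ⊆ Ioo (-(c / √(d : ℝ) / 2)) (c / √(d : ℝ) / 2) :=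
    ordConnected_Ioo.uIcc_subset h0 hβ'
  have h1 : HasDerivAt (fun u => ∫ t in (0 : ℝ)..u, hEn d 0 t) (hEn d 0 β) β :=
    intervalIntegral.integral_hasDerivAt_right ((hcont.mono hsub).intervalIntegrable)
      (hcont.stronglyMeasurableAtFilter isOpen_Ioo β hβ')
      (hcont.continuousAt (isOpen_Ioo.mem_nhds hβ'))
  exact h1.const_add _

theorem Fe_zero (d : ℕ) : Fe d 0 = Real.log 2 := by simp [Fe]

include hc hd hE in
theorem En_close (ε : ℝ) (hε : 0 < ε) : ∃ N : ℕ, ∀ n, N ≤ n → ∀ (ω : Site d → Bool) (β : ℝ),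
    |β| < c / √(d : ℝ) / 2 → |En d n ω β - Fe d β| ≤ ε * |β| := by
  obtain ⟨N, hN⟩ := dEn_close hc hd hE ε hε
  refine ⟨N, fun n hn ω β hβ => ?_⟩
  have h0 : (0 : ℝ) ∈ Ioo (-(c / √(d : ℝ) / 2)) (c / √(d : ℝ) / 2) := by
    rw [mem_Ioo_abs, abs_zero]
    exact lt_of_le_of_lt (abs_nonneg β) hβ
  have h1 := (convex_Ioo (-(c / √(d : ℝ) / 2)) (c / √(d : ℝ) / 2)).norm_image_sub_le_of_norm_hasDerivWithin_le
    (f := fun t => En d n ω t - Fe d t) (f' := fun t => dEn d n ω t - hEn d 0 t) (C := ε)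
    (fun t ht => ((En_deriv n ω t).sub (Fe_deriv hc hd hE t
      ((mem_Ioo_abs _ t).1 ht))).hasDerivWithinAt)
    (fun t ht => by rw [Real.norm_eq_abs]; exact hN n hn ω t ((mem_Ioo_abs _ t).1 ht))
    h0 ((mem_Ioo_abs _ β).2 hβ)
  rw [En_zero, Fe_zero, sub_self, sub_zero, sub_zero] at h1
  simpa [Real.norm_eq_abs] using h1

end main

end Pool.Agent.U475.EA
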