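import Pool.Agent.U475.EA.S.Ann

/-!
# Edwards–Anderson model: the logarithm of the partition function
-/

set_option autoImplicit false

open MeasureTheory Filter Set
open scoped ENNReal Topology Nat

namespace Pool.Agent.U475.EA

open Pool.H47EA

variable {d : ℕ}

/-- comparison of logarithms of exponential sums -/
theorem log_sum_exp_le {ι : Type} [Fintype ι] [Nonempty ι] (u v : ι → ℝ) (δ : ℝ)
    (h : ∀ i, |u i - v i| ≤ δ) :
    |Real.log (∑ i, Real.exp (u i)) - Real.log (∑ i, Real.exp (v i))| ≤ δ := by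
  have key : ∀ u v : ι → ℝ, (∀ i, |u i - v i| ≤ δ) →
      Real.log (∑ i, Real.exp (u i)) ≤ Real.log (∑ i, Real.exp (v i)) + δ := by
    intro u v h
    have hu : 0 < ∑ i, Real.exp (u i) :=
      Finset.sum_pos (fun _ _ => Real.exp_pos _) Finset.univ_nonempty
    have hv : 0 < ∑ i, Real.exp (v i) :=
      Finset.sum_pos (fun _ _ => Real.exp_pos _) Finset.univ_nonempty
    rw [← Real.log_exp δ, ← Real.log_mul hv.ne' (Real.exp_pos _).ne']
    apply Real.log_le_log hu
    rw [Finset.sum_mul]
    refine Finset.sum_le_sum fun i _ => ?_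
    rw [← Real.exp_add]
    apply Real.exp_le_exp.2
    have := (abs_le.1 (h i)).2
    linarith
  rw [abs_le]
  have h1 := key u v h
  have h2 := key v u fun i => by rw [abs_sub_comm]; exact h i
  constructor <;> linarith

theorem log_Zp_beta (β β' : ℝ) (J : Coupling d) (L : Finset (Site d)) (ω : Site d → Bool) :
    |Real.log (Zp β J L ω) - Real.log (Zp β' J L ω)| ≤ |β - β'| * (L.card * 3 ^ d) := by
  unfold Zp
  apply log_sum_exp_le
  intro η
  rw [← sub_mul, abs_mul]
  have h1 := abs_ham_le J L (glue L η ω)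
  have h2 : ((edgesOf L).card : ℝ) ≤ L.card * 3 ^ d := by exact_mod_cast card_edgesOf_le L
  exact mul_le_mul_of_nonneg_left (h1.trans h2) (abs_nonneg _)

theorem ham_rvE (e : (lat d).edgeSet) (J : Coupling d) (L : Finset (Site d))
    (σ : Site d → Bool) : |ham J L σ - ham (rvE e J) L σ| ≤ 2 := by
  classical
  have hother : ∀ i : Sym2 (Site d), i ≠ e.1 → bond J σ i = bond (rvE e J) σ i := by
    intro i hi
    induction i using Sym2.ind with
    | _ x y =>
      rw [Basic.bond_mk, Basic.bond_mk]
      unfold Jc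
      by_cases hadj : (lat d).Adj x y
      · rw [dif_pos hadj, dif_pos hadj, rvE_other]
        intro h
        apply hi
        rw [← h]
      · rw [dif_neg hadj, dif_neg hadj]
  unfold ham
  by_cases he : e.1 ∈ edgesOf L
  · rw [← Finset.add_sum_erase _ _ he, ← Finset.add_sum_erase (edgesOf L) (bond (rvE e J) σ) he]
    have : ∑ i ∈ (edgesOf L).erase e.1, bond J σ i =
        ∑ i ∈ (edgesOf L).erase e.1, bond (rvE e J) σ i :=
      Finset.sum_congr rfl fun i hi => hother i (Finset.ne_of_mem_erase hi)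
    rw [this]
    have h1 := abs_le.1 (abs_bond_le J σ e.1)
    have h2 := abs_le.1 (abs_bond_le (rvE e J) σ e.1)
    rw [abs_le]
    constructor <;> linarith [h1.1, h1.2, h2.1, h2.2]
  · have : ∑ i ∈ edgesOf L, bond J σ i = ∑ i ∈ edgesOf L, bond (rvE e J) σ i :=
      Finset.sum_congr rfl fun i hi => hother i (fun h => he (h ▸ hi))
    rw [this]
    norm_num

theorem log_Zp_rvE (e : (lat d).edgeSet) (β : ℝ) (J : Coupling d) (L : Finset (Site d))
    (ω : Site d → Bool) :
    |Real.log (Zp β J L ω) - Real.log (Zp β (rvE e J) L ω)| ≤ 2 * |β| := by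
  unfold Zp
  apply log_sum_exp_le
  intro η
  rw [← mul_sub, abs_mul]
  have := ham_rvE e J L (glue L η ω)
  nlinarith [abs_nonneg β]

theorem log_Zp_dep (β : ℝ) (L : Finset (Site d)) (ω : Site d → Bool) :
    DepOn (edF L) (fun J => Real.log (Zp β J L ω)) := by
  intro J J' h
  have := Zp_dep β L ω J J' h
  simp only at this ⊢
  rw [this]

/-- the variance of the logarithm of the partition function -/
theorem log_Zp_var (β : ℝ) (L : Finset (Site d)) (ω : Site d → Bool) :
    ∫ J, (Real.log (Zp β J L ω) - ∫ J', Real.log (Zp β J' L ω) ∂(couplingLaw d)) ^ 2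
      ∂(couplingLaw d) ≤ L.card * 3 ^ d * β ^ 2 := by
  set G : Coupling d → ℝ := fun J => Real.log (Zp β J L ω) with hG
  have hdep : DepOn (edF L) G := log_Zp_dep β L ω
  have h := variance_le (2 * |β|) (edF L) G hdep fun e J => log_Zp_rvE e β J L ω
  have hi := hdep.integrable
  have hsq : Integrable (fun J => G J ^ 2) (couplingLaw d) := by
    have : DepOn (edF L) (fun J => G J ^ 2) := fun J J' h => by
      simp only; rw [hdep J J' h]
    exact this.integrable
  set M : ℝ := ∫ J, G J ∂(couplingLaw d) with hM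
  have e : ∫ J, (G J - M) ^ 2 ∂(couplingLaw d) = ∫ J, G J ^ 2 ∂(couplingLaw d) - M ^ 2 := by
    have e1 : ∀ J, (G J - M) ^ 2 = G J ^ 2 - 2 * M * G J + M ^ 2 := fun J => by ring
    simp only [e1]
    have h3 : Integrable (fun J => G J ^ 2 - 2 * M * G J) (couplingLaw d) :=
      hsq.sub (hi.const_mul (2 * M))
    rw [integral_add h3 (integrable_const _), integral_sub hsq (hi.const_mul (2 * M)),
      integral_const_mul]
    simp only [integral_const, smul_eq_mul, probReal_univ, one_mul]
    rw [← hM]; ring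
  have h2 : ((edF L).card : ℝ) ≤ L.card * 3 ^ d := by
    exact_mod_cast (card_edF_le L).trans (card_edgesOf_le L)
  calc ∫ J, (G J - M) ^ 2 ∂(couplingLaw d) ≤ (edF L).card * ((2 * |β|) ^ 2 / 4) := by
        rw [e]; exact h
    _ = (edF L).card * β ^ 2 := by rw [mul_pow, sq_abs]; ring
    _ ≤ L.card * 3 ^ d * β ^ 2 := by gcongr

theorem log_Zp_zero (J : Coupling d) (L : Finset (Site d)) (ω : Site d → Bool) :
    Real.log (Zp 0 J L ω) = L.card * Real.log 2 := by
  unfold Zp
  simp

/-- derivative of the logarithm of the partition function -/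
theorem log_Zp_deriv (β : ℝ) (J : Coupling d) (L : Finset (Site d)) (ω : Site d → Bool) :
    HasDerivAt (fun β => Real.log (Zp β J L ω)) (gE β J L ω (ham J L)) β := by
  have h1 : HasDerivAt (fun β => Zp β J L ω)
      (∑ η : L → Bool, Real.exp (β * ham J L (glue L η ω)) * ham J L (glue L η ω)) β := by
    unfold Zp
    refine HasDerivAt.fun_sum fun η _ => ?_
    have h2 : HasDerivAt (fun β : ℝ => β * ham J L (glue L η ω)) (ham J L (glue L η ω)) β := by
      simpa using (hasDerivAt_id β).mul_const (ham J L (glue L η ω))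
    exact h2.exp
  exact h1.log (Basic.Zp_pos β J L ω).ne'

/-- the averaged derivative -/
theorem ann_deriv (β : ℝ) (L : Finset (Site d)) (ω : Site d → Bool) :
    HasDerivAt (fun β => ∫ J, Real.log (Zp β J L ω) ∂(couplingLaw d))
      (∫ J, gE β J L ω (ham J L) ∂(couplingLaw d)) β := by
  have hdep : ∀ β, DepOn (edF L) (fun J => gE β J L ω (ham J L)) := by
    intro β J J' h
    have e : ham J L = ham J' L := funext fun σ => ham_dep L J J' h σ
    have := gE_dep β L ω (ham J' L) J J' h
    simp only at this ⊢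
    rw [e, this]
  refine (hasDerivAt_integral_of_dominated_loc_of_deriv_le
    (F := fun β J => Real.log (Zp β J L ω)) (F' := fun β J => gE β J L ω (ham J L))
    (bound := fun _ => ((edgesOf L).card : ℝ)) (s := Set.univ) Filter.univ_mem
    (Filter.Eventually.of_forall fun β => (log_Zp_dep β L ω).meas.aestronglyMeasurable)
    (log_Zp_dep β L ω).integrable (hdep β).meas.aestronglyMeasurable
    (ae_of_all _ fun J β _ => ?_) (integrable_const _)
    (ae_of_all _ fun J β _ => log_Zp_deriv β J L ω)).2
  rw [Real.norm_eq_abs]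
  exact abs_gE_le β J L ω _ _ fun σ => abs_ham_le J L σ

/-- the energy as a sum over the sites -/
theorem gE_ham (β : ℝ) (J : Coupling d) (L : Finset (Site d)) (ω : Site d → Bool) :
    gE β J L ω (ham J L) = ∑ x ∈ L, ∑ y ∈ nbr x,
      (if y ∈ L then 1 / 2 else 1) * (Jc J x y * gE β J L ω (s2 x y)) := by
  have e1 : ∀ σ, ham J L σ = ∑ x ∈ L, ∑ y ∈ nbr x,
      (if y ∈ L then 1 / 2 else 1) * (Jc J x y * s2 x y σ) := by
    intro σ
    rw [ham_eq_sum]
    refine Finset.sum_congr rfl fun x _ => Finset.sum_congr rfl fun y _ => ?_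
    unfold s2
    split_ifs <;> ring
  rw [GIBBSE.gE_eq]
  simp only [e1, Finset.mul_sum]
  rw [Finset.sum_comm]
  refine Finset.sum_congr rfl fun x _ => ?_
  rw [Finset.sum_comm]
  refine Finset.sum_congr rfl fun y _ => ?_
  rw [GIBBSE.gE_eq, Finset.mul_sum, Finset.mul_sum]
  refine Finset.sum_congr rfl fun η _ => ?_
  ring

end Pool.Agent.U475.EA
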