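import Pool.Agent.U475.EA.S.Vol

/-!
# Edwards–Anderson model: Gevrey regularity of the expectations of local functions
-/

set_option autoImplicit false

open MeasureTheory Filter Set
open scoped ENNReal Topology Nat

namespace Pool.Agent.U475.EA

open Pool.H47EA

variable {d : ℕ}

/-- the inverse temperatures in `(-b, b)` -/
theorem mem_Ioo_abs (b x : ℝ) : x ∈ Ioo (-b) b ↔ |x| < b := by rw [abs_lt, mem_Ioo]

theorem gevC_le {c : ℝ} (hc : 0 < c) (hd : 1 ≤ d) (A : Finset (Site d)) (hA : A.Nonempty) :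
    gevC (aC c A) d ≤ A.card * (2160 * (1 + 1 / c) * d) ^ d := by
  have hA1 : (1 : ℝ) ≤ A.card := by exact_mod_cast hA.card_pos
  have h1 : √(d : ℝ) ≤ 6 ^ d := by
    rw [Real.sqrt_le_left (by positivity)]
    have h1 : (d : ℝ) ≤ 6 ^ d := by
      have : d < 6 ^ d := Nat.lt_pow_self (by norm_num)
      exact_mod_cast this.le
    have h2 : (1 : ℝ) ≤ 6 ^ d := one_le_pow₀ (by norm_num)
    nlinarith
  have h2 : aC c A ≤ A.card * 6 ^ d * (1 + 1 / c) := by
    unfold aC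
    have : √(d : ℝ) / c ≤ A.card * 6 ^ d * (1 / c) := by
      rw [div_eq_mul_one_div]
      have : √(d : ℝ) ≤ A.card * 6 ^ d := by nlinarith [pow_pos (by norm_num : (0 : ℝ) < 6) d]
      gcongr
    linarith
  have h3 : (1 + 1 / c) ≤ (1 + 1 / c) ^ d := le_self_pow₀ (by
    have : 0 < 1 / c := by positivity
    linarith) (by omega)
  have h4 : (10 : ℝ) ≤ 10 ^ d := le_self_pow₀ (by norm_num) (by omega)
  calc gevC (aC c A) d = 10 * aC c A * (36 * d : ℝ) ^ d := rfl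
    _ ≤ 10 ^ d * (A.card * 6 ^ d * (1 + 1 / c) ^ d) * (36 * d : ℝ) ^ d := by
        have : 0 ≤ aC c A := (aC_pos hc hA).le
        have h5 : aC c A ≤ A.card * 6 ^ d * (1 + 1 / c) ^ d := h2.trans (by gcongr)
        gcongr
    _ = A.card * (10 * 6 * (1 + 1 / c) * (36 * d)) ^ d := by
        rw [mul_pow (10 * 6 * (1 + 1 / c)), mul_pow (10 * 6), mul_pow 10 6]; ring
    _ = _ := by congr 2; ring

/-- the derivatives of the expectation of a local function, as sums over volumes -/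
noncomputable def Gm (J : Coupling d) (A : Finset (Site d)) (f : (Site d → Bool) → ℝ) (m : ℕ)
    (x : ℝ) : ℝ := ∑' k, rd (gk J A f k) m x

section one

variable {c : ℝ} (hc : 0 < c) (hd : 1 ≤ d) (J : Coupling d) (A : Finset (Site d))
  (hA : A.Nonempty) (K : ℝ) (hK1 : 1 ≤ K) (hK : Loss J (c / √(d : ℝ)) A K)
  (f : (Site d → Bool) → ℝ) (hf : ∀ σ, |f σ| ≤ 1) (hfl : LocalOn A f)

include hc hd hA in
theorem b_pos : 0 < c / √(d : ℝ) ∧ 1 / (c / √(d : ℝ)) ≤ aC c A := by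
  have hd0 : (0 : ℝ) < d := by exact_mod_cast hd
  refine ⟨by positivity, ?_⟩
  unfold aC
  rw [one_div_div]
  have : (0 : ℝ) ≤ A.card * 6 ^ d := by positivity
  linarith

include hc hd hA hK1 hK hf hfl in
theorem Gm_summable (m : ℕ) (x : ℝ) (hx : |x| < c / √(d : ℝ) / 2) :
    Summable fun k => rd (gk J A f k) m x :=
  gsum_summable (b_pos hc hd A hA).1 (gk J A f) d hd (aC c A) K (by linarith)
    (b_pos hc hd A hA).2 (gk_diff hc J A hA f) (gk_le hc J A hA f hf) (gk_conj J A f)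
    (gk_real J A K hK1 hK f hf hfl) m x hx

include hc hd hA hK1 hK hf hfl in
theorem Gm_le (m : ℕ) (x : ℝ) (hx : |x| < c / √(d : ℝ) / 2) :
    |Gm J A f m x| ≤ (m ! : ℝ) ^ (d + 1) * (148 * √K) * gevC (aC c A) d ^ m :=
  gsum_le (b_pos hc hd A hA).1 (gk J A f) d hd (aC c A) K (by linarith)
    (b_pos hc hd A hA).2 (gk_diff hc J A hA f) (gk_le hc J A hA f hf) (gk_conj J A f)
    (gk_real J A K hK1 hK f hf hfl) m x hx

include hc hd hA hK1 hK hf hfl in
theorem Gm_le' (m : ℕ) (x : ℝ) (hx : |x| < c / √(d : ℝ) / 2) :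
    |Gm J A f m x| ≤ 148 * K * ((A.card * (2160 * (1 + 1 / c) * d) ^ d) ^ m *
      (m ! : ℝ) ^ (d + 1)) := by
  have h1 := Gm_le hc hd J A hA K hK1 hK f hf hfl m x hx
  have h2 : √K ≤ K := by
    rw [Real.sqrt_le_left (by linarith)]
    nlinarith
  have h3 := gevC_le hc hd A hA
  have h4 : 0 ≤ gevC (aC c A) d := by
    have := (aC_pos hc hA).le
    unfold gevC
    positivity
  calc |Gm J A f m x| ≤ (m ! : ℝ) ^ (d + 1) * (148 * √K) * gevC (aC c A) d ^ m := h1
    _ ≤ (m ! : ℝ) ^ (d + 1) * (148 * K) * (A.card * (2160 * (1 + 1 / c) * d) ^ d) ^ m := by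
        gcongr
    _ = _ := by ring

include hc hd hA hK1 hK hf hfl in
theorem Gm_deriv (m : ℕ) (x : ℝ) (hx : |x| < c / √(d : ℝ) / 2) :
    HasDerivAt (Gm J A f m) (Gm J A f (m + 1) x) x :=
  gsum_deriv (b_pos hc hd A hA).1 (gk J A f) d hd (aC c A) K (by linarith)
    (b_pos hc hd A hA).2 (gk_diff hc J A hA f) (gk_le hc J A hA f hf) (gk_conj J A f)
    (gk_real J A K hK1 hK f hf hfl) m x hx

include hc hd hA hK1 hK hf hfl in
theorem Gm_zero (x : ℝ) (hx : |x| < c / √(d : ℝ) / 2) (π : Measure (Site d → Bool))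
    (hπ : IsGibbs x J π) : Gm J A f 0 x = ∫ σ, f σ ∂π :=
  gk_sum J A K hK f hf hfl x (by
    have := (b_pos hc hd A hA).1
    linarith) (Gm_summable hc hd J A hA K hK1 hK f hf hfl 0 x hx) π hπ

end one

/-- the environment is good: all the constants are finite and the Gibbs states are unique -/
theorem env : ∃ c : ℝ, 0 < c ∧ ∀ d : ℕ, 1 ≤ d →
    ∃ K : Finset (Site d) → Coupling d → ℝ≥0∞,
      (∀ A, A.Nonempty → Measurable (K A) ∧ (∀ J, 1 ≤ K A J) ∧
        ∫⁻ J, K A J ∂(couplingLaw d) ≤ 64800 ^ d * A.card) ∧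
      (∀ A : Finset (Site d), A.Nonempty → ∀ J : Coupling d, K A J < ∞ →
        Loss J (c / √(d : ℝ)) A (K A J).toReal) ∧
      ∀ᵐ J ∂(couplingLaw d), (∀ A : Finset (Site d), A.Nonempty → K A J < ∞) ∧
        ∀ β : ℝ, |β| ≤ c / √(d : ℝ) → ∃! π : Measure (Site d → Bool), IsGibbs β J π := by
  classical
  obtain ⟨c₁, hc₁, H⟩ := decay_all
  obtain ⟨c₂, hc₂, H'⟩ := unique_all
  refine ⟨min c₁ c₂, lt_min hc₁ hc₂, fun d hd => ?_⟩
  have hle1 : min c₁ c₂ / √(d : ℝ) ≤ c₁ / √(d : ℝ) := by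
    gcongr; exact min_le_left _ _
  have hle2 : min c₁ c₂ / √(d : ℝ) ≤ c₂ / √(d : ℝ) := by
    gcongr; exact min_le_right _ _
  set K : Finset (Site d) → Coupling d → ℝ≥0∞ := fun A =>
    if hA : A.Nonempty then (H d hd A hA).choose else 0 with hK
  have hKs : ∀ A (hA : A.Nonempty), K A = (H d hd A hA).choose := fun A hA => by
    simp only [hK, hA, dif_pos]
  have hKm : ∀ A, A.Nonempty → Measurable (K A) ∧ (∀ J, 1 ≤ K A J) ∧
      ∫⁻ J, K A J ∂(couplingLaw d) ≤ 64800 ^ d * A.card := by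
    intro A hA
    rw [hKs A hA]
    exact ⟨(H d hd A hA).choose_spec.1, (H d hd A hA).choose_spec.2.1,
      (H d hd A hA).choose_spec.2.2.1⟩
  refine ⟨K, hKm, ?_, ?_⟩
  · intro A hA J hfin β hβ L r hAL hfar f hf hfl ω ω'
    have h1 := (H d hd A hA).choose_spec.2.2.2 J β (hβ.trans hle1) L r hAL hfar f hf hfl ω ω'
    rw [← hKs A hA] at h1
    have h2 : K A J * ENNReal.ofReal (Real.exp (-((r : ℝ) / 9))) =
        ENNReal.ofReal ((K A J).toReal * Real.exp (-((r : ℝ) / 9))) := by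
      rw [ENNReal.ofReal_mul ENNReal.toReal_nonneg, ENNReal.ofReal_toReal hfin.ne]
    rw [h2] at h1
    exact (ENNReal.ofReal_le_ofReal_iff (by positivity)).1 h1
  · have h1 : ∀ᵐ J ∂(couplingLaw d), ∀ A : Finset (Site d), A.Nonempty → K A J < ∞ := by
      rw [ae_all_iff]
      intro A
      by_cases hA : A.Nonempty
      · have : ∫⁻ J, K A J ∂(couplingLaw d) ≠ ∞ := by
          refine ((hKm A hA).2.2.trans_lt ?_).ne
          exact ENNReal.mul_lt_top (ENNReal.pow_lt_top (by norm_num)) (ENNReal.natCast_lt_top _)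
        filter_upwards [ae_lt_top (hKm A hA).1 this] with J hJ _ using hJ
      · exact ae_of_all _ fun J h => absurd h hA
    filter_upwards [h1, H' d hd] with J hJ hJ'
    exact ⟨hJ, fun β hβ => hJ' β (hβ.trans hle2)⟩

end Pool.Agent.U475.EA
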