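import Pool.Agent.U475.EA.S.Rect

/-!
# Ratios of exponential sums in a complex strip, and Gevrey bounds for sums of such functions
-/

set_option autoImplicit false

open Set Filter Topology
open scoped Nat ContDiff

namespace Pool.Agent.U475.EA

section ratio

variable {ι : Type} [Fintype ι] [Nonempty ι]

/-- exponential sum -/
noncomputable def cnum (a w : ι → ℝ) (z : ℂ) : ℂ := ∑ i, Complex.exp (z * a i) * w i

/-- ratio of exponential sums -/
noncomputable def cav (a w : ι → ℝ) (z : ℂ) : ℂ := cnum a w z / cnum a (fun _ => 1) z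

/-- the real partition function -/
noncomputable def rZ (a : ι → ℝ) (x : ℝ) : ℝ := ∑ i, Real.exp (x * a i)

theorem rZ_pos (a : ι → ℝ) (x : ℝ) : 0 < rZ a x :=
  Finset.sum_pos (fun _ _ => Real.exp_pos _) Finset.univ_nonempty

omit [Nonempty ι] in
theorem cnum_le (a w : ι → ℝ) (W : ℝ) (hw : ∀ i, |w i| ≤ W) (z : ℂ) :
    ‖cnum a w z‖ ≤ W * rZ a z.re := by
  unfold cnum rZ
  refine (norm_sum_le _ _).trans ?_
  rw [Finset.mul_sum]
  refine Finset.sum_le_sum fun i _ => ?_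
  rw [norm_mul, Complex.norm_exp, Complex.norm_real, Real.norm_eq_abs, mul_comm]
  have : (z * (a i : ℂ)).re = z.re * a i := by simp
  rw [this]
  exact mul_le_mul_of_nonneg_right (hw i) (Real.exp_pos _).le

theorem cden_ge (a : ι → ℝ) (A : ℝ) (ha : ∀ i, |a i| ≤ A) (z : ℂ) (hz : |z.im| * A ≤ 1 / 2) :
    rZ a z.re / 2 ≤ ‖cnum a (fun _ => 1) z‖ := by
  have hterm : ∀ i, Complex.exp (z * a i) - ((Real.exp (z.re * a i) : ℝ) : ℂ) =
      ((Real.exp (z.re * a i) : ℝ) : ℂ) * (Complex.exp (Complex.I * ((z.im * a i : ℝ) : ℂ)) - 1) := by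
    intro i
    have h1 : z * a i = ((z.re * a i : ℝ) : ℂ) + Complex.I * ((z.im * a i : ℝ) : ℂ) := by
      apply Complex.ext <;> simp
    rw [h1, Complex.exp_add, Complex.ofReal_exp]
    ring
  have h2 : ‖cnum a (fun _ => 1) z - ((rZ a z.re : ℝ) : ℂ)‖ ≤ rZ a z.re / 2 := by
    have e : cnum a (fun _ => 1) z - ((rZ a z.re : ℝ) : ℂ) =
        ∑ i, (Complex.exp (z * a i) - ((Real.exp (z.re * a i) : ℝ) : ℂ)) := by
      unfold cnum rZ
      push_cast
      rw [← Finset.sum_sub_distrib]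
      simp
    rw [e]
    refine (norm_sum_le _ _).trans ?_
    unfold rZ
    rw [Finset.sum_div]
    refine Finset.sum_le_sum fun i _ => ?_
    rw [hterm i, norm_mul, Complex.norm_real, Real.norm_eq_abs, abs_of_pos (Real.exp_pos _)]
    have h3 := Real.norm_exp_I_mul_ofReal_sub_one_le (x := z.im * a i)
    have h4 : ‖z.im * a i‖ ≤ 1 / 2 := by
      rw [Real.norm_eq_abs, abs_mul]
      exact (mul_le_mul_of_nonneg_left (ha i) (abs_nonneg _)).trans hz
    have h5 := mul_le_mul_of_nonneg_left (h3.trans h4) (Real.exp_pos (z.re * a i)).le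
    linarith
  have h6 : ‖((rZ a z.re : ℝ) : ℂ)‖ = rZ a z.re := by
    rw [Complex.norm_real, Real.norm_eq_abs, abs_of_pos (rZ_pos a z.re)]
  have h7 := norm_sub_norm_le ((rZ a z.re : ℝ) : ℂ) (cnum a (fun _ => 1) z)
  rw [norm_sub_rev, h6] at h7
  linarith

theorem cav_le (a w : ι → ℝ) (A W : ℝ) (ha : ∀ i, |a i| ≤ A) (hw : ∀ i, |w i| ≤ W) (z : ℂ)
    (hz : |z.im| * A ≤ 1 / 2) : ‖cav a w z‖ ≤ 2 * W := by
  have h1 := cnum_le a w W hw z
  have h2 := cden_ge a A ha z hz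
  have h3 := rZ_pos a z.re
  have h4 : 0 < ‖cnum a (fun _ => 1) z‖ := by linarith
  have hW : 0 ≤ W := (abs_nonneg _).trans (hw (Classical.arbitrary ι))
  unfold cav
  rw [norm_div, div_le_iff₀ h4]
  nlinarith

omit [Nonempty ι] in
theorem cnum_diff (a w : ι → ℝ) : Differentiable ℂ (cnum a w) := by
  unfold cnum
  fun_prop

theorem cav_diff (a w : ι → ℝ) (A : ℝ) (ha : ∀ i, |a i| ≤ A) (z : ℂ)
    (hz : |z.im| * A ≤ 1 / 2) : DifferentiableAt ℂ (cav a w) z := by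
  have h2 := cden_ge a A ha z hz
  have h3 := rZ_pos a z.re
  have h4 : 0 < ‖cnum a (fun _ => 1) z‖ := by linarith
  exact (cnum_diff a w z).div (cnum_diff a _ z) (norm_pos_iff.1 h4)

omit [Nonempty ι] in
theorem cnum_conj (a w : ι → ℝ) (z : ℂ) :
    cnum a w ((starRingEnd ℂ) z) = (starRingEnd ℂ) (cnum a w z) := by
  unfold cnum
  rw [map_sum]
  refine Finset.sum_congr rfl fun i _ => ?_
  rw [map_mul, ← Complex.exp_conj, map_mul, Complex.conj_ofReal, Complex.conj_ofReal]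

omit [Nonempty ι] in
theorem cav_conj (a w : ι → ℝ) (z : ℂ) :
    cav a w ((starRingEnd ℂ) z) = (starRingEnd ℂ) (cav a w z) := by
  unfold cav
  rw [cnum_conj, cnum_conj, map_div₀]

omit [Nonempty ι] in
theorem cav_real (a w : ι → ℝ) (x : ℝ) :
    cav a w (x : ℂ) = (((∑ i, Real.exp (x * a i) * w i) / rZ a x : ℝ) : ℂ) := by
  unfold cav cnum rZ
  push_cast
  simp

end ratio

/-- real part of the iterated derivatives along the real line -/
noncomputable def rd (g : ℂ → ℂ) (m : ℕ) (x : ℝ) : ℝ := (iteratedDeriv m g (x : ℂ)).re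

theorem rd_hasDerivAt (g : ℂ → ℂ) (ρ : ℝ) (hρ : 0 < ρ)
    (hg : ∀ z : ℂ, |z.im| ≤ ρ → DifferentiableAt ℂ g z) (m : ℕ) (x : ℝ) :
    HasDerivAt (rd g m) (rd g (m + 1) x) x := by
  set U : Set ℂ := {z : ℂ | |z.im| < ρ} with hU
  have hUo : IsOpen U := isOpen_lt (by fun_prop) continuous_const
  have hd : DifferentiableOn ℂ g U := fun z hz => (hg z (le_of_lt hz)).differentiableWithinAt
  have ha : AnalyticOnNhd ℂ g U := hd.analyticOnNhd hUo
  have hm : AnalyticOnNhd ℂ (iteratedDeriv m g) U := by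
    rw [iteratedDeriv_eq_iterate]; exact ha.iterated_deriv m
  have hx : (x : ℂ) ∈ U := by simp [hU, hρ]
  have h1 : HasDerivAt (iteratedDeriv m g) (iteratedDeriv (m + 1) g (x : ℂ)) (x : ℂ) := by
    rw [iteratedDeriv_succ]
    exact (hm x hx).differentiableAt.hasDerivAt
  exact h1.real_of_complex

theorem pow_le_fact_exp (m d k : ℕ) (hd : 1 ≤ d) :
    (((k : ℝ) + 1) ^ m) ^ d ≤
      (m ! : ℝ) ^ d * ((36 * d : ℝ) ^ d) ^ m * Real.exp (((k : ℝ) + 1) / 36) := by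
  have hd0 : (0 : ℝ) < d := by exact_mod_cast hd
  have h1 := Real.pow_div_factorial_le_exp (((k : ℝ) + 1) / (36 * d)) (by positivity) m
  have hf : (0 : ℝ) < m ! := by exact_mod_cast m.factorial_pos
  rw [div_pow, div_div, div_le_iff₀ (by positivity)] at h1
  have h2 := pow_le_pow_left₀ (by positivity) h1 d
  refine h2.trans (le_of_eq ?_)
  rw [mul_pow, mul_pow, ← Real.exp_nat_mul, ← pow_mul, ← pow_mul, mul_comm m d]
  have : (d : ℝ) * (((k : ℝ) + 1) / (36 * d)) = ((k : ℝ) + 1) / 36 := by field_simp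
  rw [this]; ring

section gevrey

variable {b : ℝ} (hb : 0 < b) (g : ℕ → ℂ → ℂ) (d : ℕ) (hd : 1 ≤ d) (a K : ℝ) (hK : 0 < K)
  (ha : 1 / b ≤ a)
  (hdiff : ∀ (k : ℕ) (z : ℂ), |z.im| ≤ 1 / (2 * (a * ((k : ℝ) + 1) ^ d)) →
    DifferentiableAt ℂ (g k) z)
  (hbd : ∀ (k : ℕ) (z : ℂ), |z.im| ≤ 1 / (2 * (a * ((k : ℝ) + 1) ^ d)) → ‖g k z‖ ≤ 4)
  (hsym : ∀ (k : ℕ) (z : ℂ), ‖g k ((starRingEnd ℂ) z)‖ = ‖g k z‖)
  (hr : ∀ (k : ℕ) (x : ℝ), |x| < b → ‖g k x‖ ≤ K * Real.exp (-((k : ℝ) / 9)))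

/-- the constants of the Gevrey bounds -/
noncomputable def gevC (a : ℝ) (d : ℕ) : ℝ := 10 * a * (36 * d : ℝ) ^ d

include hb hd hK ha hdiff hbd hsym hr in
theorem term_le (m k : ℕ) (x : ℝ) (hx : |x| < b / 2) :
    |rd (g k) m x| ≤ (m ! : ℝ) ^ (d + 1) * (4 * √K) * gevC a d ^ m *
      Real.exp (-(1 / 36)) ^ k := by
  have ha0 : 0 < a := lt_of_lt_of_le (by positivity) ha
  set A : ℝ := a * ((k : ℝ) + 1) ^ d with hA
  have hA0 : 0 < A := by positivity
  have haA : a ≤ A := by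
    rw [hA]
    have : (1 : ℝ) ≤ ((k : ℝ) + 1) ^ d := one_le_pow₀ (by
      have : (0 : ℝ) ≤ k := Nat.cast_nonneg k
      linarith)
    nlinarith
  have hρb : 1 / (2 * A) ≤ b / 2 := by
    rw [div_le_iff₀ (by positivity)]
    have h1 : 1 ≤ a * b := by
      rw [div_le_iff₀ hb] at ha; exact ha
    nlinarith
  have h1 := two_const_deriv (g k) x (1 / (2 * A)) 4 (K * Real.exp (-((k : ℝ) / 9)))
    (by positivity) (by positivity) (by norm_num) (hdiff k) (hbd k) (hsym k)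
    (fun y hy => hr k y (by
      have := abs_sub_abs_le_abs_sub y x
      linarith)) m
  have h2 : |rd (g k) m x| ≤ ‖iteratedDeriv m (g k) (x : ℂ)‖ := Complex.abs_re_le_norm _
  refine (h2.trans h1).trans ?_
  have e1 : √(4 * (K * Real.exp (-((k : ℝ) / 9)))) = 2 * √K * Real.exp (-((k : ℝ) / 18)) := by
    rw [Real.sqrt_eq_iff_mul_self_eq (by positivity) (by positivity)]
    have : Real.exp (-((k : ℝ) / 18)) * Real.exp (-((k : ℝ) / 18)) = Real.exp (-((k : ℝ) / 9)) := by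
      rw [← Real.exp_add]; ring_nf
    have hKK := Real.mul_self_sqrt hK.le
    symm
    calc 2 * √K * Real.exp (-((k : ℝ) / 18)) * (2 * √K * Real.exp (-((k : ℝ) / 18)))
        = 4 * ((√K * √K) * (Real.exp (-((k : ℝ) / 18)) * Real.exp (-((k : ℝ) / 18)))) := by ring
      _ = 4 * (K * Real.exp (-((k : ℝ) / 9))) := by rw [this, hKK]
  have e2 : (m ! : ℝ) * √(4 * (K * Real.exp (-((k : ℝ) / 9)))) / (1 / (2 * A) / 5) ^ m =
      (m ! : ℝ) * (2 * √K) * (10 * a) ^ m * (((k : ℝ) + 1) ^ m) ^ d *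
        Real.exp (-((k : ℝ) / 18)) := by
    rw [e1]
    have : 1 / (2 * A) / 5 = (10 * A)⁻¹ := by field_simp; norm_num
    rw [this, inv_pow, div_inv_eq_mul, hA]
    ring
  rw [e2]
  have h3 := pow_le_fact_exp m d k hd
  have h4 : Real.exp (((k : ℝ) + 1) / 36) * Real.exp (-((k : ℝ) / 18)) ≤
      2 * Real.exp (-(1 / 36)) ^ k := by
    rw [← Real.exp_add, ← Real.exp_nat_mul]
    have e : ((k : ℝ) + 1) / 36 + -((k : ℝ) / 18) = 1 / 36 + (k : ℝ) * -(1 / 36) := by ring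
    rw [e, Real.exp_add]
    have h5 : Real.exp (1 / 36) ≤ 2 := by
      have h6 := Real.exp_one_lt_d9
      have h7 : Real.exp (1 / 36) ^ 36 = Real.exp 1 := by
        rw [← Real.exp_nat_mul]; norm_num
      by_contra hcon
      push Not at hcon
      have h8 : (2 : ℝ) ^ 36 < Real.exp (1 / 36) ^ 36 :=
        pow_lt_pow_left₀ hcon (by norm_num) (by norm_num)
      rw [h7] at h8
      norm_num at h8
      linarith
    exact mul_le_mul_of_nonneg_right h5 (Real.exp_pos _).le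
  have hf : (0 : ℝ) < m ! := by exact_mod_cast m.factorial_pos
  calc (m ! : ℝ) * (2 * √K) * (10 * a) ^ m * (((k : ℝ) + 1) ^ m) ^ d * Real.exp (-((k : ℝ) / 18))
      ≤ (m ! : ℝ) * (2 * √K) * (10 * a) ^ m *
        ((m ! : ℝ) ^ d * ((36 * d : ℝ) ^ d) ^ m * Real.exp (((k : ℝ) + 1) / 36)) *
          Real.exp (-((k : ℝ) / 18)) := by gcongr
    _ = (m ! : ℝ) ^ (d + 1) * (2 * √K) * gevC a d ^ m *
        (Real.exp (((k : ℝ) + 1) / 36) * Real.exp (-((k : ℝ) / 18))) := by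
        rw [gevC, mul_pow (10 * a)]; ring
    _ ≤ (m ! : ℝ) ^ (d + 1) * (2 * √K) * gevC a d ^ m * (2 * Real.exp (-(1 / 36)) ^ k) := by
        have hg : 0 ≤ gevC a d := by unfold gevC; positivity
        gcongr
    _ = _ := by ring

theorem sum_exp_le : Summable (fun k : ℕ => Real.exp (-(1 / 36)) ^ k) ∧
    ∑' k : ℕ, Real.exp (-(1 / 36)) ^ k ≤ 37 := by
  have h1 : Real.exp (-(1 / 36)) ≤ 36 / 37 := by
    rw [Real.exp_neg]
    have h2 := Real.add_one_le_exp (1 / 36 : ℝ)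
    have h3 : (37 / 36 : ℝ) ≤ Real.exp (1 / 36) := by linarith
    calc (Real.exp (1 / 36))⁻¹ ≤ (37 / 36 : ℝ)⁻¹ := by gcongr
      _ = 36 / 37 := by norm_num
  have h0 : 0 ≤ Real.exp (-(1 / 36)) := (Real.exp_pos _).le
  have hlt : Real.exp (-(1 / 36)) < 1 := by linarith
  refine ⟨summable_geometric_of_lt_one h0 hlt, ?_⟩
  rw [tsum_geometric_of_lt_one h0 hlt]
  calc (1 - Real.exp (-(1 / 36)))⁻¹ ≤ (1 / 37 : ℝ)⁻¹ := by
        gcongr
        linarith
    _ = 37 := by norm_num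

include hb hd hK ha hdiff hbd hsym hr in
theorem gsum_summable (m : ℕ) (x : ℝ) (hx : |x| < b / 2) : Summable fun k => rd (g k) m x := by
  refine Summable.of_norm_bounded (sum_exp_le.1.mul_left
    ((m ! : ℝ) ^ (d + 1) * (4 * √K) * gevC a d ^ m)) fun k => ?_
  rw [Real.norm_eq_abs]
  exact term_le hb g d hd a K hK ha hdiff hbd hsym hr m k x hx

include hb hd hK ha hdiff hbd hsym hr in
theorem gsum_le (m : ℕ) (x : ℝ) (hx : |x| < b / 2) :
    |∑' k, rd (g k) m x| ≤ (m ! : ℝ) ^ (d + 1) * (148 * √K) * gevC a d ^ m := by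
  have ha0 : 0 < a := lt_of_lt_of_le (by positivity) ha
  have hg : 0 ≤ gevC a d := by unfold gevC; positivity
  have h1 := tsum_of_norm_bounded (f := fun k => rd (g k) m x)
    (sum_exp_le.1.mul_left ((m ! : ℝ) ^ (d + 1) * (4 * √K) * gevC a d ^ m)).hasSum fun k => by
      rw [Real.norm_eq_abs]
      exact term_le hb g d hd a K hK ha hdiff hbd hsym hr m k x hx
  rw [Real.norm_eq_abs] at h1
  refine h1.trans ?_
  rw [tsum_mul_left]
  calc (m ! : ℝ) ^ (d + 1) * (4 * √K) * gevC a d ^ m * ∑' k : ℕ, Real.exp (-(1 / 36)) ^ k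
      ≤ (m ! : ℝ) ^ (d + 1) * (4 * √K) * gevC a d ^ m * 37 := by
        gcongr
        exact sum_exp_le.2
    _ = _ := by ring

include hb hd hK ha hdiff hbd hsym hr in
theorem gsum_deriv (m : ℕ) (x : ℝ) (hx : |x| < b / 2) :
    HasDerivAt (fun y => ∑' k, rd (g k) m y) (∑' k, rd (g k) (m + 1) x) x := by
  have ha0 : 0 < a := lt_of_lt_of_le (by positivity) ha
  have hmem : ∀ y, y ∈ Ioo (-(b / 2)) (b / 2) ↔ |y| < b / 2 := fun y => by
    rw [abs_lt, mem_Ioo]
  refine hasDerivAt_tsum_of_isPreconnected (g := fun k y => rd (g k) m y)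
    (g' := fun k y => rd (g k) (m + 1) y)
    (sum_exp_le.1.mul_left (((m + 1)! : ℝ) ^ (d + 1) * (4 * √K) * gevC a d ^ (m + 1)))
    isOpen_Ioo isPreconnected_Ioo
    (fun k y hy => rd_hasDerivAt (g k) (1 / (2 * (a * ((k : ℝ) + 1) ^ d))) (by positivity)
      (hdiff k) m y) (fun k y hy => ?_) ((hmem x).2 hx)
    (gsum_summable hb g d hd a K hK ha hdiff hbd hsym hr m x hx) ((hmem x).2 hx)
  rw [Real.norm_eq_abs]
  exact term_le hb g d hd a K hK ha hdiff hbd hsym hr (m + 1) k y ((hmem y).1 hy)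

end gevrey

/-- from a chain of derivatives to iterated derivatives -/
theorem chain_iteratedDeriv {s : Set ℝ} (hs : IsOpen s) (F : ℝ → ℝ) (G : ℕ → ℝ → ℝ)
    (h0 : ∀ x ∈ s, F x = G 0 x) (h : ∀ m, ∀ x ∈ s, HasDerivAt (G m) (G (m + 1) x) x) (m : ℕ) :
    ∀ x ∈ s, iteratedDeriv m F x = G m x := by
  induction m with
  | zero => intro x hx; rw [iteratedDeriv_zero]; exact h0 x hx
  | succ m ih =>
    intro x hx
    rw [iteratedDeriv_succ]
    have he : iteratedDeriv m F =ᶠ[𝓝 x] G m := by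
      filter_upwards [hs.mem_nhds hx] with y hy using ih y hy
    rw [he.deriv_eq]
    exact (h m x hx).deriv

theorem contDiffOn_chain {s : Set ℝ} (hs : IsOpen s) (G : ℕ → ℝ → ℝ)
    (h : ∀ m, ∀ x ∈ s, HasDerivAt (G m) (G (m + 1) x) x) : ContDiffOn ℝ ∞ (G 0) s := by
  have key : ∀ n m : ℕ, ContDiffOn ℝ n (G m) s := by
    intro n
    induction n with
    | zero =>
      intro m
      rw [Nat.cast_zero, contDiffOn_zero]
      exact fun x hx => (h m x hx).continuousAt.continuousWithinAt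
    | succ n ih =>
      intro m
      rw [show ((n + 1 : ℕ) : WithTop ℕ∞) = (n : WithTop ℕ∞) + 1 by push_cast; rfl]
      rw [contDiffOn_succ_iff_deriv_of_isOpen hs]
      refine ⟨fun x hx => (h m x hx).differentiableAt.differentiableWithinAt, by simp, ?_⟩
      exact (ih (m + 1)).congr fun x hx => (h m x hx).deriv
  rw [contDiffOn_infty]
  exact fun n => key n 0

end Pool.Agent.U475.EA
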