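import Mathlib

/-!
# A two-constants estimate on a small square centred on the real line
-/

set_option autoImplicit false

open Set
open scoped Nat

namespace Pool.Agent.U475.EA

/-- the auxiliary exponent -/
noncomputable def rexp (s ρ x0 : ℝ) (z : ℂ) : ℂ :=
  -((s / ρ ^ 2 : ℝ) : ℂ) * (z - x0) ^ 2 + ((2 * s / ρ : ℝ) : ℂ) * (Complex.I * (z - x0))

theorem rexp_re (s ρ x0 : ℝ) (z : ℂ) : (rexp s ρ x0 z).re =
    -(s / ρ ^ 2) * ((z.re - x0) ^ 2 - z.im ^ 2) - (2 * s / ρ) * z.im := by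
  unfold rexp
  set a : ℝ := s / ρ ^ 2 with ha
  set b : ℝ := 2 * s / ρ with hb
  rw [← Complex.ofReal_neg, Complex.add_re, Complex.re_ofReal_mul, Complex.re_ofReal_mul]
  simp [pow_two, Complex.mul_re, Complex.mul_im]
  ring

theorem two_const_upper (f : ℂ → ℂ) (x0 ρ M ε : ℝ) (hρ : 0 < ρ) (hε : 0 < ε) (hεM : ε ≤ M)
    (hd : ∀ z : ℂ, |z.re - x0| ≤ ρ → 0 ≤ z.im → z.im ≤ ρ → DifferentiableAt ℂ f z)
    (hM : ∀ z : ℂ, |z.re - x0| ≤ ρ → 0 ≤ z.im → z.im ≤ ρ → ‖f z‖ ≤ M)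
    (hr : ∀ x : ℝ, |x - x0| ≤ ρ → ‖f x‖ ≤ ε) (z : ℂ) (hz1 : |z.re - x0| ≤ ρ / 5)
    (hz2 : 0 ≤ z.im) (hz3 : z.im ≤ ρ / 5) : ‖f z‖ ≤ √(M * ε) := by
  have hM0 : 0 < M := lt_of_lt_of_le hε hεM
  set s : ℝ := Real.log (M / ε) with hs
  have hs0 : 0 ≤ s := Real.log_nonneg (by rw [one_le_div hε]; exact hεM)
  have hes : Real.exp s = M / ε := Real.exp_log (by positivity)
  have hMe : M * Real.exp (-s) = ε := by
    rw [Real.exp_neg, hes]; field_simp
  set F : ℂ → ℂ := fun z => f z * Complex.exp (rexp s ρ x0 z) with hF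
  set U : Set ℂ := Ioo (x0 - ρ) (x0 + ρ) ×ℂ Ioo 0 ρ with hU
  have hcl : closure U = Icc (x0 - ρ) (x0 + ρ) ×ℂ Icc 0 ρ := by
    rw [hU, Complex.closure_reProdIm, closure_Ioo (by linarith), closure_Ioo hρ.ne]
  have hmem : ∀ w : ℂ, w ∈ closure U → |w.re - x0| ≤ ρ ∧ 0 ≤ w.im ∧ w.im ≤ ρ := by
    intro w hw
    rw [hcl, Complex.mem_reProdIm] at hw
    exact ⟨by rw [abs_le]; constructor <;> linarith [hw.1.1, hw.1.2], hw.2.1, hw.2.2⟩
  have hdF : DiffContOnCl ℂ F U := by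
    apply DifferentiableOn.diffContOnCl
    intro w hw
    obtain ⟨h1, h2, h3⟩ := hmem w hw
    apply DifferentiableAt.differentiableWithinAt
    apply (hd w h1 h2 h3).mul
    unfold rexp
    fun_prop
  have hnF : ∀ w : ℂ, ‖F w‖ = ‖f w‖ * Real.exp ((rexp s ρ x0 w).re) := by
    intro w
    rw [hF]
    simp only
    rw [norm_mul, Complex.norm_exp]
  have hbd : Bornology.IsBounded U := by
    rw [hU]
    exact (Metric.isBounded_Ioo _ _).reProdIm (Metric.isBounded_Ioo _ _)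
  have hρ2 : 0 < ρ ^ 2 := by positivity
  have hfr : ∀ w ∈ frontier U, ‖F w‖ ≤ ε := by
    intro w hw
    have hwc : w ∈ closure U := frontier_subset_closure hw
    obtain ⟨h1, h2, h3⟩ := hmem w hwc
    rw [hU, Complex.frontier_reProdIm, closure_Ioo (by linarith), closure_Ioo hρ.ne,
      frontier_Ioo hρ, frontier_Ioo (by linarith)] at hw
    have hside : (rexp s ρ x0 w).re ≤ -s → ‖F w‖ ≤ ε := by
      intro he
      rw [hnF, ← hMe]
      exact mul_le_mul (hM w h1 h2 h3) (Real.exp_le_exp.2 he) (Real.exp_pos _).le hM0.le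
    have hre : (rexp s ρ x0 w).re =
        s * ((-(w.re - x0) ^ 2 + w.im ^ 2 - 2 * w.im * ρ) / ρ ^ 2) := by
      rw [rexp_re]; field_simp; ring
    rcases hw with hw | hw
    · rw [Complex.mem_reProdIm] at hw
      rcases hw.2 with h | h
      · -- bottom
        have hwr : w = ((w.re : ℝ) : ℂ) := by
          apply Complex.ext <;> simp [h]
        have he : (rexp s ρ x0 w).re ≤ 0 := by
          rw [hre, h]
          apply mul_nonpos_of_nonneg_of_nonpos hs0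
          apply div_nonpos_of_nonpos_of_nonneg _ hρ2.le
          nlinarith [sq_nonneg (w.re - x0)]
        have hfw : ‖f w‖ ≤ ε := by
          rw [hwr]; exact hr w.re h1
        rw [hnF]
        calc ‖f w‖ * Real.exp ((rexp s ρ x0 w).re) ≤ ε * 1 :=
              mul_le_mul hfw (Real.exp_le_one_iff.2 he) (Real.exp_pos _).le hε.le
          _ = ε := mul_one ε
      · -- top
        apply hside
        have h' : w.im = ρ := h
        rw [hre, h']
        have : (-(w.re - x0) ^ 2 + ρ ^ 2 - 2 * ρ * ρ) / ρ ^ 2 ≤ -1 := by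
          rw [div_le_iff₀ hρ2]
          nlinarith [sq_nonneg (w.re - x0)]
        nlinarith
    · rw [Complex.mem_reProdIm] at hw
      apply hside
      have hsq : (w.re - x0) ^ 2 = ρ ^ 2 := by
        rcases hw.1 with h | h
        · have h' : w.re = x0 - ρ := h
          rw [h']; ring
        · have h' : w.re = x0 + ρ := h
          rw [h']; ring
      rw [hre, hsq]
      have : (-ρ ^ 2 + w.im ^ 2 - 2 * w.im * ρ) / ρ ^ 2 ≤ -1 := by
        rw [div_le_iff₀ hρ2]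
        nlinarith
      nlinarith
  have hzc : z ∈ closure U := by
    rw [hcl, Complex.mem_reProdIm]
    rw [abs_le] at hz1
    exact ⟨⟨by linarith, by linarith⟩, ⟨hz2, by linarith⟩⟩
  have hFz := Complex.norm_le_of_forall_mem_frontier_norm_le hbd hdF hfr hzc
  rw [hnF] at hFz
  have hlow : -(s / 2) ≤ (rexp s ρ x0 z).re := by
    have hre : (rexp s ρ x0 z).re =
        s * ((-(z.re - x0) ^ 2 + z.im ^ 2 - 2 * z.im * ρ) / ρ ^ 2) := by
      rw [rexp_re]; field_simp; ring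
    rw [hre]
    have h5 : (z.re - x0) ^ 2 ≤ (ρ / 5) ^ 2 := by
      rw [← sq_abs]
      exact pow_le_pow_left₀ (abs_nonneg _) hz1 2
    have : -(1 / 2) ≤ (-(z.re - x0) ^ 2 + z.im ^ 2 - 2 * z.im * ρ) / ρ ^ 2 := by
      rw [le_div_iff₀ hρ2]
      nlinarith [sq_nonneg z.im]
    nlinarith
  have h6 : ‖f z‖ ≤ ε * Real.exp (s / 2) := by
    have h7 : ‖f z‖ * Real.exp (-(s / 2)) ≤ ε :=
      (mul_le_mul_of_nonneg_left (Real.exp_le_exp.2 hlow) (norm_nonneg _)).trans hFz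
    calc ‖f z‖ = ‖f z‖ * Real.exp (-(s / 2)) * Real.exp (s / 2) := by
          rw [mul_assoc, ← Real.exp_add]; simp
      _ ≤ ε * Real.exp (s / 2) := by gcongr
  refine h6.trans (Real.le_sqrt_of_sq_le ?_)
  rw [mul_pow, ← Real.exp_nat_mul]
  have : ((2 : ℕ) : ℝ) * (s / 2) = s := by push_cast; ring
  rw [this, hes]
  apply le_of_eq
  field_simp

/-- the estimate on a full neighbourhood, for functions symmetric under conjugation -/
theorem two_const (f : ℂ → ℂ) (x0 ρ M ε : ℝ) (hρ : 0 < ρ) (hε : 0 < ε) (hM0 : 0 ≤ M)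
    (hd : ∀ z : ℂ, |z.im| ≤ ρ → DifferentiableAt ℂ f z)
    (hM : ∀ z : ℂ, |z.im| ≤ ρ → ‖f z‖ ≤ M)
    (hsym : ∀ z : ℂ, ‖f ((starRingEnd ℂ) z)‖ = ‖f z‖)
    (hr : ∀ x : ℝ, |x - x0| ≤ ρ → ‖f x‖ ≤ ε) (z : ℂ) (hz : ‖z - x0‖ ≤ ρ / 5) :
    ‖f z‖ ≤ √(M * ε) := by
  have h1 : |z.re - x0| ≤ ρ / 5 := by
    have := Complex.abs_re_le_norm (z - x0)
    simp at this
    exact this.trans hz
  have h2 : |z.im| ≤ ρ / 5 := by
    have := Complex.abs_im_le_norm (z - x0)
    simp at this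
    exact this.trans hz
  by_cases hεM : ε ≤ M
  · have key : ∀ w : ℂ, |w.re - x0| ≤ ρ / 5 → 0 ≤ w.im → w.im ≤ ρ / 5 → ‖f w‖ ≤ √(M * ε) :=
      two_const_upper f x0 ρ M ε hρ hε hεM
        (fun w _ h h' => hd w (by rw [abs_of_nonneg h]; exact h'))
        (fun w _ h h' => hM w (by rw [abs_of_nonneg h]; exact h')) hr
    rcases le_total 0 z.im with h | h
    · exact key z h1 h (by rw [abs_of_nonneg h] at h2; exact h2)
    · rw [← hsym]
      apply key
      · simpa using h1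
      · simpa using h
      · rw [abs_of_nonpos h] at h2
        simpa using h2
  · push Not at hεM
    refine (hM z (h2.trans (by linarith))).trans (Real.le_sqrt_of_sq_le ?_)
    nlinarith

/-- bounds on the derivatives at a real point -/
theorem two_const_deriv (f : ℂ → ℂ) (x0 ρ M ε : ℝ) (hρ : 0 < ρ) (hε : 0 < ε) (hM0 : 0 ≤ M)
    (hd : ∀ z : ℂ, |z.im| ≤ ρ → DifferentiableAt ℂ f z)
    (hM : ∀ z : ℂ, |z.im| ≤ ρ → ‖f z‖ ≤ M)
    (hsym : ∀ z : ℂ, ‖f ((starRingEnd ℂ) z)‖ = ‖f z‖)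
    (hr : ∀ x : ℝ, |x - x0| ≤ ρ → ‖f x‖ ≤ ε) (m : ℕ) :
    ‖iteratedDeriv m f (x0 : ℂ)‖ ≤ m ! * √(M * ε) / (ρ / 5) ^ m := by
  have him : ∀ z : ℂ, ‖z - x0‖ ≤ ρ / 5 → |z.im| ≤ ρ := by
    intro z hz
    have := Complex.abs_im_le_norm (z - x0)
    simp at this
    linarith
  apply Complex.norm_iteratedDeriv_le_of_forall_mem_sphere_norm_le m (by positivity)
  · apply DifferentiableOn.diffContOnCl
    intro w hw
    rw [closure_ball _ (by positivity), Metric.mem_closedBall, dist_eq_norm] at hw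
    exact (hd w (him w hw)).differentiableWithinAt
  · intro z hz
    rw [mem_sphere_iff_norm] at hz
    exact two_const f x0 ρ M ε hρ hε hM0 hd hM hsym hr z hz.le

end Pool.Agent.U475.EA
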