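import Pool.Agent.U475.EA.S.Vol

/-!
# Edwards–Anderson model: translations of the couplings
-/

set_option autoImplicit false

open MeasureTheory Filter
open scoped ENNReal Topology

namespace Pool.Agent.U475.EA

open Pool.H47EA

variable {d : ℕ}

theorem dist1_add (x y v : Site d) : dist1 (x + v) (y + v) = dist1 x y := by
  simp [dist1]

theorem adj_add (x y v : Site d) : (lat d).Adj (x + v) (y + v) ↔ (lat d).Adj x y := by
  show dist1 (x + v) (y + v) = 1 ↔ dist1 x y = 1
  rw [dist1_add]

/-- translation of edges -/
def shE (v : Site d) (e : (lat d).edgeSet) : (lat d).edgeSet :=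
  ⟨e.1.map (· + v), by
    obtain ⟨e, he⟩ := e
    induction e using Sym2.ind with
    | _ x y => exact (adj_add x y v).2 he⟩

theorem shE_shE (v w : Site d) (h : v + w = 0) (e : (lat d).edgeSet) : shE w (shE v e) = e := by
  apply Subtype.ext
  obtain ⟨e, he⟩ := e
  induction e using Sym2.ind with
  | _ x y =>
    show s(x + v + w, y + v + w) = s(x, y)
    rw [add_assoc, add_assoc, h, add_zero, add_zero]

/-- translation of edges as an equivalence -/
def shQ (v : Site d) : (lat d).edgeSet ≃ (lat d).edgeSet where
  toFun := shE v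
  invFun := shE (-v)
  left_inv e := shE_shE v (-v) (by simp) e
  right_inv e := shE_shE (-v) v (by simp) e

/-- translated couplings -/
def sh (v : Site d) (J : Coupling d) : Coupling d := fun e => J (shE v e)

theorem Jc_sh (v : Site d) (J : Coupling d) (x y : Site d) :
    Jc (sh v J) x y = Jc J (x + v) (y + v) := by
  unfold Jc
  by_cases h : (lat d).Adj x y
  · have h' : (lat d).Adj (x + v) (y + v) := (adj_add x y v).2 h
    rw [dif_pos h, dif_pos h']
    rfl
  · have h' : ¬ (lat d).Adj (x + v) (y + v) := fun h' => h ((adj_add x y v).1 h')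
    rw [dif_neg h, dif_neg h']

theorem measurable_sh (v : Site d) : Measurable (sh v) :=
  measurable_pi_lambda _ fun _ => measurable_pi_apply _

theorem map_sh (v : Site d) : (couplingLaw d).map (sh v) = couplingLaw d := by
  have h := Measure.infinitePi_map_piCongrLeft (X := fun _ : (lat d).edgeSet => Bool)
    (μ := fun _ : (lat d).edgeSet => (PMF.uniformOfFintype Bool).toMeasure) (shQ v).symm
  have e : ⇑(MeasurableEquiv.piCongrLeft (fun _ : (lat d).edgeSet => Bool) (shQ v).symm) =
      sh (d := d) v := by
    funext J i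
    have h1 := MeasurableEquiv.piCongrLeft_apply_apply (β := fun _ : (lat d).edgeSet => Bool)
      (shQ v).symm J (shQ v i)
    rw [Equiv.symm_apply_apply] at h1
    exact h1
  rw [e] at h
  exact h

theorem integral_sh (v : Site d) (G : Coupling d → ℝ) :
    ∫ J, G (sh v J) ∂(couplingLaw d) = ∫ J, G J ∂(couplingLaw d) := by
  have hemb : MeasurableEmbedding (sh (d := d) v) := by
    have e : ⇑(MeasurableEquiv.piCongrLeft (fun _ : (lat d).edgeSet => Bool) (shQ v).symm) =
        sh (d := d) v := by
      funext J i
      have h1 := MeasurableEquiv.piCongrLeft_apply_apply (β := fun _ : (lat d).edgeSet => Bool)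
        (shQ v).symm J (shQ v i)
      rw [Equiv.symm_apply_apply] at h1
      exact h1
    rw [← e]
    exact MeasurableEquiv.measurableEmbedding _
  conv_rhs => rw [← map_sh v]
  rw [hemb.integral_map]

/-- translation of a finite set -/
def shF (v : Site d) (L : Finset (Site d)) : Finset (Site d) :=
  L.map (addRightEmbedding v)

theorem mem_shF (v : Site d) (L : Finset (Site d)) (x : Site d) :
    x ∈ shF v L ↔ x - v ∈ L := by
  unfold shF
  rw [Finset.mem_map]
  constructor
  · rintro ⟨y, hy, rfl⟩
    simpa using hy
  · intro h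
    exact ⟨x - v, h, by simp⟩

theorem add_mem_shF (v : Site d) (L : Finset (Site d)) (x : Site d) :
    x + v ∈ shF v L ↔ x ∈ L := by
  rw [mem_shF]; simp

theorem nbr_add (x v : Site d) : nbr (x + v) = (nbr x).map (addRightEmbedding v) := by
  ext y
  rw [mem_nbr_iff, Finset.mem_map]
  constructor
  · intro h
    refine ⟨y - v, ?_, by simp⟩
    rw [mem_nbr_iff, ← dist1_add x (y - v) v]
    simpa using h
  · rintro ⟨z, hz, rfl⟩
    rw [mem_nbr_iff] at hz
    show dist1 (x + v) (z + v) = 1
    rw [dist1_add]; exact hz

theorem ham_sh (v : Site d) (J : Coupling d) (L : Finset (Site d)) (σ : Site d → Bool) :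
    ham (sh v J) L σ = ham J (shF v L) (fun x => σ (x - v)) := by
  rw [ham_eq_sum, ham_eq_sum]
  unfold shF
  rw [Finset.sum_map]
  refine Finset.sum_congr rfl fun x _ => ?_
  rw [addRightEmbedding_apply, nbr_add, Finset.sum_map]
  refine Finset.sum_congr rfl fun y _ => ?_
  simp only [addRightEmbedding_apply, Jc_sh, add_sub_cancel_right]
  have : (y + v ∈ Finset.map (addRightEmbedding v) L) ↔ y ∈ L := add_mem_shF v L y
  simp only [this]

/-- translation of the sites of a finite set -/
def shS (v : Site d) (L : Finset (Site d)) : L ≃ shF v L where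
  toFun x := ⟨x.1 + v, (add_mem_shF v L x.1).2 x.2⟩
  invFun x := ⟨x.1 - v, (mem_shF v L x.1).1 x.2⟩
  left_inv x := by simp
  right_inv x := by simp

theorem glue_sh (v : Site d) (L : Finset (Site d)) (η : L → Bool) (ω : Site d → Bool) :
    (fun x => glue L η ω (x - v)) =
      glue (shF v L) (fun x => η ((shS v L).symm x)) (fun x => ω (x - v)) := by
  funext x
  by_cases h : x ∈ shF v L
  · have h' : x - v ∈ L := (mem_shF v L x).1 h
    rw [Basic.glue_mem _ _ h, Basic.glue_mem _ _ h']
    rfl
  · have h' : x - v ∉ L := fun h' => h ((mem_shF v L x).2 h')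
    rw [Basic.glue_not_mem _ _ h, Basic.glue_not_mem _ _ h']

theorem gE_sh (β : ℝ) (v : Site d) (J : Coupling d) (L : Finset (Site d)) (ω : Site d → Bool)
    (f : (Site d → Bool) → ℝ) :
    gE β (sh v J) L ω f =
      gE β J (shF v L) (fun x => ω (x - v)) (fun σ => f (fun x => σ (x + v))) := by
  have key : ∀ g : (Site d → Bool) → ℝ,
      ∑ η : L → Bool, Real.exp (β * ham (sh v J) L (glue L η ω)) * g (glue L η ω) =
        ∑ η : shF v L → Bool,
          Real.exp (β * ham J (shF v L) (glue (shF v L) η fun x => ω (x - v))) *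
            g (fun x => glue (shF v L) η (fun x => ω (x - v)) (x + v)) := by
    intro g
    refine Fintype.sum_equiv ((shS v L).arrowCongr (Equiv.refl Bool)) _ _ fun η => ?_
    have e : ((shS v L).arrowCongr (Equiv.refl Bool)) η = fun x => η ((shS v L).symm x) := rfl
    rw [e, ham_sh, glue_sh]
    congr 2
    funext x
    rw [← glue_sh]
    simp
  unfold gE Zp
  rw [key f]
  have h1 := key (fun _ => 1)
  simp only [mul_one] at h1
  rw [h1]

end Pool.Agent.U475.EA
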