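import Pool.Agent.U475.EA.Flip

/-!
# Edwards–Anderson model: the inverse temperature `-β`, and `β = 0`
-/

set_option autoImplicit false

open MeasureTheory Filter
open scoped ENNReal Topology

namespace Pool.Agent.U475.EA

open Pool.H47EA

variable {d : ℕ}

/-- all signs reversed -/
def negJ (J : Coupling d) : Coupling d := fun e => !(J e)

theorem negJ_negJ (J : Coupling d) : negJ (negJ J) = J := by
  funext e; simp [negJ]

theorem Jc_neg (J : Coupling d) (x y : Site d) : Jc (negJ J) x y = - Jc J x y := by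
  unfold Jc
  split_ifs
  · exact sg_not _
  · simp

theorem ham_neg (J : Coupling d) (L : Finset (Site d)) (σ : Site d → Bool) :
    ham (negJ J) L σ = - ham J L σ := by
  unfold ham
  rw [← Finset.sum_neg_distrib]
  refine Finset.sum_congr rfl fun e _ => ?_
  induction e using Sym2.ind with
  | _ x y =>
    show Jc (negJ J) x y * sg (σ x) * sg (σ y) = -(Jc J x y * sg (σ x) * sg (σ y))
    rw [Jc_neg]; ring

theorem gE_neg (β : ℝ) (J : Coupling d) (L : Finset (Site d)) (ω : Site d → Bool)
    (f : (Site d → Bool) → ℝ) : gE β (negJ J) L ω f = gE (-β) J L ω f := by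
  unfold gE Zp
  have : ∀ η : L → Bool, β * ham (negJ J) L (glue L η ω) = -β * ham J L (glue L η ω) := by
    intro η; rw [ham_neg]; ring
  simp only [this]

theorem isGibbs_neg (β : ℝ) (J : Coupling d) (π : Measure (Site d → Bool)) :
    IsGibbs β (negJ J) π ↔ IsGibbs (-β) J π := by
  unfold IsGibbs
  simp only [gE_neg]

theorem map_not : ((PMF.uniformOfFintype Bool).toMeasure).map (fun b => !b) =
    (PMF.uniformOfFintype Bool).toMeasure := by
  rw [PMF.toMeasure_map (f := fun b : Bool => !b) _ (measurable_of_finite _)]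
  congr 1
  ext b
  rw [PMF.map_apply]
  simp only [PMF.uniformOfFintype_apply, Fintype.card_bool]
  rw [tsum_bool]
  cases b <;> simp

theorem measurable_negJ : Measurable (negJ (d := d)) :=
  measurable_pi_lambda _ fun e => (measurable_of_finite _).comp (measurable_pi_apply e)

theorem map_negJ : (couplingLaw d).map negJ = couplingLaw d := by
  unfold couplingLaw
  have h := Measure.infinitePi_map_pi (μ := fun _ : (lat d).edgeSet =>
    (PMF.uniformOfFintype Bool).toMeasure) (f := fun _ b => !b)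
    (fun _ => measurable_of_finite _)
  simp only [map_not] at h
  exact h

theorem ae_negJ {P : Coupling d → Prop} (h : ∀ᵐ J ∂(couplingLaw d), P J) :
    ∀ᵐ J ∂(couplingLaw d), P (negJ J) := by
  rw [← map_negJ] at h
  exact ae_of_ae_map measurable_negJ.aemeasurable h

theorem lintegral_negJ (K : Coupling d → ℝ≥0∞) (hK : Measurable K) :
    ∫⁻ J, K (negJ J) ∂(couplingLaw d) = ∫⁻ J, K J ∂(couplingLaw d) := by
  conv_rhs => rw [← map_negJ]
  rw [lintegral_map hK measurable_negJ]

theorem gE_zero (J : Coupling d) (A L : Finset (Site d)) (hAL : A ⊆ L) (ω ω' : Site d → Bool)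
    (f : (Site d → Bool) → ℝ) (hf : LocalOn A f) : gE 0 J L ω f = gE 0 J L ω' f := by
  unfold gE Zp
  have : ∀ η : L → Bool, f (glue L η ω) = f (glue L η ω') := by
    intro η
    refine hf _ _ fun x hx => ?_
    rw [Basic.glue_mem η ω (hAL hx), Basic.glue_mem η ω' (hAL hx)]
  simp only [zero_mul, this]

theorem forget_zero (J : Coupling d) : Forget 0 J := by
  intro A δ hδ
  refine ⟨A, fun L hL f _ hfl ω ω' => ?_⟩
  rw [gE_zero J A L hL ω ω' f hfl]
  simpa using hδ.le

/-- uniqueness for all small `β`, of either sign -/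
theorem unique_all : ∃ c : ℝ, 0 < c ∧ ∀ d : ℕ, 1 ≤ d → ∀ᵐ J ∂(couplingLaw d),
    ∀ β : ℝ, |β| ≤ c / √(d : ℝ) → ∃! π : Measure (Site d → Bool), IsGibbs β J π := by
  obtain ⟨c, hc, H⟩ := main_of t_BASIC hINF (t_EXPL t_BASIC) t_CHAIN t_GIBBSU
    (t_GIBBSE t_BASIC) hGOOD t_BALL
  refine ⟨c, hc, fun d hd => ?_⟩
  filter_upwards [H d hd, ae_negJ (H d hd)] with J h1 h2 β hβ
  rcases lt_trichotomy β 0 with h | h | h
  · rw [abs_of_neg h] at hβ
    have := h2.1 (-β) (by linarith) hβ
    simpa only [isGibbs_neg, neg_neg] using this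
  · subst h
    obtain ⟨π, hπ⟩ := t_GIBBSE t_BASIC d 0 J (forget_zero J)
    exact ⟨π, hπ, fun π' hπ' => t_GIBBSU d 0 J (forget_zero J) π' π hπ' hπ⟩
  · rw [abs_of_pos h] at hβ
    exact h1.1 β h hβ

/-- loss of memory for all small `β`, of either sign -/
theorem decay_all : ∃ c : ℝ, 0 < c ∧ ∀ d : ℕ, 1 ≤ d → ∀ A : Finset (Site d), A.Nonempty →
    ∃ K : Coupling d → ℝ≥0∞, Measurable K ∧ (∀ J, 1 ≤ K J) ∧
      ∫⁻ J, K J ∂(couplingLaw d) ≤ 64800 ^ d * A.card ∧
      ∀ (J : Coupling d) (β : ℝ), |β| ≤ c / √(d : ℝ) →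
        ∀ (L : Finset (Site d)) (r : ℕ), A ⊆ L → (∀ a ∈ A, ∀ y, y ∉ L → r ≤ dist1 a y) →
        ∀ f : (Site d → Bool) → ℝ, (∀ σ, |f σ| ≤ 1) → LocalOn A f → ∀ ω ω' : Site d → Bool,
          ENNReal.ofReal |gE β J L ω f - gE β J L ω' f| ≤
            K J * ENNReal.ofReal (Real.exp (-((r : ℝ) / 9))) := by
  obtain ⟨c, hc, H⟩ := decay
  refine ⟨c, hc, fun d hd A hA => ?_⟩
  obtain ⟨K, hKm, hKi, hK⟩ := H d hd A hA
  have hA1 : (1 : ℝ≥0∞) ≤ A.card := by
    have : 1 ≤ A.card := hA.card_pos
    exact_mod_cast this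
  refine ⟨fun J => 2 * (K J + K (negJ J)) + 1, by
    have := hKm.comp (measurable_negJ (d := d))
    exact ((hKm.add this).const_mul 2).add_const 1, fun J => le_add_self, ?_, ?_⟩
  · rw [lintegral_add_right _ measurable_const, lintegral_const, measure_univ, mul_one,
      lintegral_const_mul (μ := couplingLaw d) 2 (f := fun J => K J + K (negJ J))
        (hKm.add (hKm.comp measurable_negJ)), lintegral_add_left hKm,
      lintegral_negJ K hKm]
    have h1 : (1 : ℝ≥0∞) ≤ 10800 ^ d * A.card := by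
      calc (1 : ℝ≥0∞) = 1 * 1 := (mul_one 1).symm
        _ ≤ 10800 ^ d * A.card := mul_le_mul' (one_le_pow₀ (by norm_num)) hA1
    calc 2 * (∫⁻ J, K J ∂(couplingLaw d) + ∫⁻ J, K J ∂(couplingLaw d)) + 1
        ≤ 2 * (10800 ^ d * A.card + 10800 ^ d * A.card) + 10800 ^ d * A.card := by gcongr
      _ = 5 * (10800 ^ d * A.card) := by ring
      _ ≤ 6 * (10800 ^ d * A.card) := by gcongr; norm_num
      _ ≤ 6 ^ d * (10800 ^ d * A.card) := by
          gcongr
          exact le_self_pow₀ (by norm_num) (by omega)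
      _ = 64800 ^ d * A.card := by rw [← mul_assoc, ← mul_pow]; norm_num
  · intro J β hβ L r hAL hfar f hf hfl ω ω'
    set E := ENNReal.ofReal (Real.exp (-((r : ℝ) / 9))) with hE
    -- the function with values in `[0,1]`
    set h : (Site d → Bool) → ℝ := fun σ => 1 / 2 * f σ + 1 / 2 with hh
    have hu : Unit01 h := fun σ => by
      have := abs_le.1 (hf σ)
      simp only [hh]
      constructor <;> linarith [this.1, this.2]
    have hl : LocalOn A h := fun σ σ' hs => by
      simp only [hh]; rw [hfl σ σ' hs]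
    have e1 : ∀ τ, gE β J L τ h = 1 / 2 * gE β J L τ f + 1 / 2 := by
      intro τ
      have := (t_BASIC d β J L τ).2.2.2.1 f (fun _ => 1) (1 / 2) (1 / 2)
      rw [(t_BASIC d β J L τ).2.1 1] at this
      simpa [hh] using this
    have e2 : |gE β J L ω f - gE β J L ω' f| = 2 * |gE β J L ω h - gE β J L ω' h| := by
      rw [e1, e1, show (1 / 2 * gE β J L ω f + 1 / 2 - (1 / 2 * gE β J L ω' f + 1 / 2)) =
        1 / 2 * (gE β J L ω f - gE β J L ω' f) by ring, abs_mul,
        abs_of_pos (by norm_num : (0 : ℝ) < 1 / 2)]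
      ring
    have key : ENNReal.ofReal |gE β J L ω h - gE β J L ω' h| ≤ (K J + K (negJ J)) * E := by
      rcases lt_trichotomy β 0 with hs | hs | hs
      · rw [abs_of_neg hs] at hβ
        have := hK (negJ J) (-β) (by linarith) hβ L r hfar h hu hl ω ω'
        rw [gE_neg, gE_neg, neg_neg] at this
        exact this.trans (by gcongr; exact le_add_self)
      · subst hs
        rw [gE_zero J A L hAL ω ω' h hl]
        simp
      · rw [abs_of_pos hs] at hβ
        exact (hK J β hs hβ L r hfar h hu hl ω ω').trans (by gcongr; exact le_self_add)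
    rw [e2, ENNReal.ofReal_mul (by norm_num)]
    have h2 : ENNReal.ofReal 2 = 2 := by norm_num
    rw [h2]
    calc 2 * ENNReal.ofReal |gE β J L ω h - gE β J L ω' h| ≤ 2 * ((K J + K (negJ J)) * E) := by
          gcongr
      _ = 2 * (K J + K (negJ J)) * E := by ring
      _ ≤ (2 * (K J + K (negJ J)) + 1) * E := by gcongr; exact le_self_add

end Pool.Agent.U475.EA
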