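import Pool.Agent.U475.EA.S.Ratio
import Pool.Agent.U475.EA.S.Sym

/-!
# Edwards–Anderson model: the expectation of a local function as a sum over volumes
-/

set_option autoImplicit false

open MeasureTheory Filter
open scoped ENNReal Topology Nat

namespace Pool.Agent.U475.EA

open Pool.H47EA

variable {d : ℕ}

/-- neighbourhoods of `A` -/
noncomputable def vol (A : Finset (Site d)) (k : ℕ) : Finset (Site d) :=
  A.biUnion fun a => ball a k

theorem dist1_self (x : Site d) : dist1 x x = 0 := by simp [dist1]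

theorem sub_vol (A : Finset (Site d)) (k : ℕ) : A ⊆ vol A k := by
  intro x hx
  rw [vol, Finset.mem_biUnion]
  exact ⟨x, hx, (mem_ball_iff x x k).2 (by rw [dist1_self]; omega)⟩

theorem vol_mono (A : Finset (Site d)) {j k : ℕ} (h : j ≤ k) : vol A j ⊆ vol A k := by
  intro x hx
  rw [vol, Finset.mem_biUnion] at hx ⊢
  obtain ⟨a, ha, hax⟩ := hx
  rw [mem_ball_iff] at hax
  exact ⟨a, ha, (mem_ball_iff a x k).2 (by omega)⟩

theorem vol_far (A : Finset (Site d)) (k : ℕ) : ∀ a ∈ A, ∀ y, y ∉ vol A k → k + 1 ≤ dist1 a y := by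
  intro a ha y hy
  by_contra hcon
  apply hy
  rw [vol, Finset.mem_biUnion]
  exact ⟨a, ha, (mem_ball_iff a y k).2 (by omega)⟩

theorem card_ball_le (x : Site d) (r : ℕ) : (ball x r).card ≤ (2 * r + 1) ^ d := by
  unfold ball
  refine (Finset.card_filter_le _ _).trans ?_
  rw [Pi.card_Icc]
  simp only [Int.card_Icc]
  have : ∀ i : Fin d, (x i + (r : ℤ) + 1 - (x i - (r : ℤ))).toNat = 2 * r + 1 := by
    intro i
    omega
  simp [this]

theorem card_nbr_le (x : Site d) : (nbr x).card ≤ 3 ^ d := by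
  unfold nbr
  refine (Finset.card_filter_le _ _).trans ?_
  rw [Pi.card_Icc]
  simp only [Int.card_Icc]
  have : ∀ i : Fin d, (x i + 1 + 1 - (x i - 1)).toNat = 3 := by
    intro i
    omega
  simp [this]

theorem card_edgesOf_le (L : Finset (Site d)) : (edgesOf L).card ≤ L.card * 3 ^ d := by
  classical
  unfold edgesOf
  exact Finset.card_biUnion_le_card_mul _ _ _ fun x _ =>
    Finset.card_image_le.trans (card_nbr_le x)

theorem card_vol_le (A : Finset (Site d)) (k : ℕ) : (vol A k).card ≤ A.card * (2 * k + 1) ^ d := by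
  classical
  unfold vol
  exact Finset.card_biUnion_le_card_mul _ _ _ fun x _ => card_ball_le x k

theorem abs_bond_le (J : Coupling d) (σ : Site d → Bool) (e : Sym2 (Site d)) :
    |bond J σ e| ≤ 1 := by
  induction e using Sym2.ind with
  | _ x y =>
    show |Jc J x y * sg (σ x) * sg (σ y)| ≤ 1
    rw [abs_mul, abs_mul]
    have h1 : |Jc J x y| ≤ 1 := by
      unfold Jc
      split_ifs
      · unfold sg; split_ifs <;> norm_num
      · norm_num
    have h2 : ∀ b, |sg b| = 1 := fun b => by unfold sg; split_ifs <;> norm_num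
    rw [h2, h2]
    linarith

theorem abs_ham_le (J : Coupling d) (L : Finset (Site d)) (σ : Site d → Bool) :
    |ham J L σ| ≤ (edgesOf L).card := by
  unfold ham
  refine (Finset.abs_sum_le_sum_abs _ _).trans ?_
  refine (Finset.sum_le_sum fun e _ => abs_bond_le J σ e).trans ?_
  simp

/-- the constant in the bound of the energy of `vol A k` -/
noncomputable def aC (c : ℝ) (A : Finset (Site d)) : ℝ := A.card * 6 ^ d + √(d : ℝ) / c

theorem ham_vol_le {c : ℝ} (hc : 0 < c) (J : Coupling d) (A : Finset (Site d)) (k : ℕ)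
    (σ : Site d → Bool) : |ham J (vol A k) σ| ≤ aC c A * ((k : ℝ) + 1) ^ d := by
  refine (abs_ham_le J _ σ).trans ?_
  have h1 : (edgesOf (vol A k)).card ≤ A.card * (2 * k + 1) ^ d * 3 ^ d :=
    (card_edgesOf_le _).trans (Nat.mul_le_mul_right _ (card_vol_le A k))
  have h2 : ((edgesOf (vol A k)).card : ℝ) ≤ A.card * (2 * k + 1) ^ d * 3 ^ d := by
    exact_mod_cast h1
  have h3 : ((2 : ℝ) * k + 1) ^ d ≤ (2 * ((k : ℝ) + 1)) ^ d :=
    pow_le_pow_left₀ (by positivity) (by linarith) d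
  have h4 : (0 : ℝ) ≤ √(d : ℝ) / c := by positivity
  calc ((edgesOf (vol A k)).card : ℝ) ≤ A.card * (2 * k + 1) ^ d * 3 ^ d := h2
    _ ≤ A.card * (2 * ((k : ℝ) + 1)) ^ d * 3 ^ d := by gcongr
    _ = A.card * 6 ^ d * ((k : ℝ) + 1) ^ d := by
        rw [mul_pow, show (6 : ℝ) = 2 * 3 by norm_num, mul_pow]; ring
    _ ≤ aC c A * ((k : ℝ) + 1) ^ d := by
        unfold aC
        gcongr
        linarith

/-- the finite-volume expectation as a function of the complex inverse temperature -/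
noncomputable def cE (J : Coupling d) (L : Finset (Site d)) (ω : Site d → Bool)
    (f : (Site d → Bool) → ℝ) : ℂ → ℂ :=
  cav (fun η : L → Bool => ham J L (glue L η ω)) (fun η : L → Bool => f (glue L η ω))

theorem cE_real (J : Coupling d) (L : Finset (Site d)) (ω : Site d → Bool)
    (f : (Site d → Bool) → ℝ) (x : ℝ) : cE J L ω f (x : ℂ) = ((gE x J L ω f : ℝ) : ℂ) := by
  unfold cE
  rw [cav_real]
  rfl

/-- the terms of the series -/
noncomputable def gk (J : Coupling d) (A : Finset (Site d)) (f : (Site d → Bool) → ℝ) :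
    ℕ → ℂ → ℂ
  | 0 => cE J (vol A 0) (fun _ => true) f
  | (k + 1) => fun z => cE J (vol A (k + 1)) (fun _ => true) f z - cE J (vol A k) (fun _ => true) f z

theorem im_le {a : ℝ} (ha : 0 < a) (k : ℕ) (z : ℂ)
    (hz : |z.im| ≤ 1 / (2 * (a * ((k : ℝ) + 1) ^ d))) : |z.im| * (a * ((k : ℝ) + 1) ^ d) ≤ 1 / 2 := by
  have h : 0 < a * ((k : ℝ) + 1) ^ d := by positivity
  rw [le_div_iff₀ (by positivity)] at hz
  linarith

theorem im_le' {a : ℝ} (ha : 0 < a) (k : ℕ) (z : ℂ)
    (hz : |z.im| ≤ 1 / (2 * (a * (((k + 1 : ℕ) : ℝ) + 1) ^ d))) :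
    |z.im| * (a * ((k : ℝ) + 1) ^ d) ≤ 1 / 2 := by
  refine le_trans ?_ (im_le ha (k + 1) z hz)
  gcongr
  linarith

theorem aC_pos {c : ℝ} (hc : 0 < c) {A : Finset (Site d)} (hA : A.Nonempty) : 0 < aC c A := by
  unfold aC
  have h1 : (0 : ℝ) < A.card := by exact_mod_cast hA.card_pos
  have h2 : (0 : ℝ) ≤ √(d : ℝ) / c := by positivity
  positivity

theorem cE_diff {c : ℝ} (hc : 0 < c) (J : Coupling d) (A : Finset (Site d))
    (f : (Site d → Bool) → ℝ) (k : ℕ) (z : ℂ)
    (hz : |z.im| * (aC c A * ((k : ℝ) + 1) ^ d) ≤ 1 / 2) :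
    DifferentiableAt ℂ (cE J (vol A k) (fun _ => true) f) z :=
  cav_diff _ _ _ (fun η => ham_vol_le hc J A k _) z hz

theorem cE_le {c : ℝ} (hc : 0 < c) (J : Coupling d) (A : Finset (Site d))
    (f : (Site d → Bool) → ℝ) (hf : ∀ σ, |f σ| ≤ 1) (k : ℕ) (z : ℂ)
    (hz : |z.im| * (aC c A * ((k : ℝ) + 1) ^ d) ≤ 1 / 2) :
    ‖cE J (vol A k) (fun _ => true) f z‖ ≤ 2 := by
  have := cav_le (fun η : vol A k → Bool => ham J (vol A k) (glue (vol A k) η fun _ => true))
    (fun η => f (glue (vol A k) η fun _ => true)) _ 1 (fun _ => ham_vol_le hc J A k _)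
    (fun _ => hf _) z hz
  simpa [cE] using this

theorem gk_diff {c : ℝ} (hc : 0 < c) (J : Coupling d) (A : Finset (Site d)) (hA : A.Nonempty)
    (f : (Site d → Bool) → ℝ) (k : ℕ) (z : ℂ)
    (hz : |z.im| ≤ 1 / (2 * (aC c A * ((k : ℝ) + 1) ^ d))) :
    DifferentiableAt ℂ (gk J A f k) z := by
  have ha := aC_pos hc hA
  cases k with
  | zero => exact cE_diff hc J A f 0 z (im_le ha 0 z hz)
  | succ k =>
    exact (cE_diff hc J A f (k + 1) z (im_le ha (k + 1) z hz)).sub
      (cE_diff hc J A f k z (im_le' ha k z hz))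

theorem gk_le {c : ℝ} (hc : 0 < c) (J : Coupling d) (A : Finset (Site d)) (hA : A.Nonempty)
    (f : (Site d → Bool) → ℝ) (hf : ∀ σ, |f σ| ≤ 1) (k : ℕ) (z : ℂ)
    (hz : |z.im| ≤ 1 / (2 * (aC c A * ((k : ℝ) + 1) ^ d))) : ‖gk J A f k z‖ ≤ 4 := by
  have ha := aC_pos hc hA
  cases k with
  | zero => exact (cE_le hc J A f hf 0 z (im_le ha 0 z hz)).trans (by norm_num)
  | succ k =>
    calc ‖gk J A f (k + 1) z‖ ≤ ‖cE J (vol A (k + 1)) (fun _ => true) f z‖ +
          ‖cE J (vol A k) (fun _ => true) f z‖ := norm_sub_le _ _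
      _ ≤ 2 + 2 := add_le_add (cE_le hc J A f hf (k + 1) z (im_le ha (k + 1) z hz))
          (cE_le hc J A f hf k z (im_le' ha k z hz))
      _ = 4 := by norm_num

theorem gk_conj (J : Coupling d) (A : Finset (Site d)) (f : (Site d → Bool) → ℝ) (k : ℕ)
    (z : ℂ) : ‖gk J A f k ((starRingEnd ℂ) z)‖ = ‖gk J A f k z‖ := by
  cases k with
  | zero =>
    show ‖cav _ _ ((starRingEnd ℂ) z)‖ = _
    rw [cav_conj, Complex.norm_conj]
    rfl
  | succ k =>
    show ‖cav _ _ ((starRingEnd ℂ) z) - cav _ _ ((starRingEnd ℂ) z)‖ = _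
    rw [cav_conj, cav_conj, ← map_sub, Complex.norm_conj]
    rfl

theorem gE_sub_const (β : ℝ) (J : Coupling d) (L : Finset (Site d)) (ω : Site d → Bool)
    (F : (Site d → Bool) → ℝ) (c C : ℝ) (h : ∀ τ, |F τ - c| ≤ C) : |gE β J L ω F - c| ≤ C := by
  have e : gE β J L ω (fun τ => F τ - c) = gE β J L ω F - c := by
    have := (t_BASIC d β J L ω).2.2.2.1 F (fun _ => 1) 1 (-c)
    rw [(t_BASIC d β J L ω).2.1 1] at this
    calc gE β J L ω (fun τ => F τ - c) = gE β J L ω (fun τ => 1 * F τ + -c * 1) := by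
          congr 1; funext τ; ring
      _ = gE β J L ω F - c := by rw [this]; ring
  rw [← e]
  exact abs_gE_le β J L ω _ C h

/-- the loss of memory at the inverse temperatures in `(-b, b)` -/
def Loss (J : Coupling d) (b : ℝ) (A : Finset (Site d)) (K : ℝ) : Prop :=
  ∀ (β : ℝ), |β| ≤ b →
    ∀ (L : Finset (Site d)) (r : ℕ), A ⊆ L → (∀ a ∈ A, ∀ y, y ∉ L → r ≤ dist1 a y) →
    ∀ f : (Site d → Bool) → ℝ, (∀ σ, |f σ| ≤ 1) → LocalOn A f → ∀ ω ω' : Site d → Bool,
      |gE β J L ω f - gE β J L ω' f| ≤ K * Real.exp (-((r : ℝ) / 9))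

theorem gk_real {b : ℝ} (J : Coupling d) (A : Finset (Site d)) (K : ℝ) (hK1 : 1 ≤ K)
    (hK : Loss J b A K) (f : (Site d → Bool) → ℝ) (hf : ∀ σ, |f σ| ≤ 1) (hfl : LocalOn A f)
    (k : ℕ) (x : ℝ) (hx : |x| < b) : ‖gk J A f k x‖ ≤ K * Real.exp (-((k : ℝ) / 9)) := by
  cases k with
  | zero =>
    show ‖cE J (vol A 0) (fun _ => true) f x‖ ≤ _
    rw [cE_real, Complex.norm_real, Real.norm_eq_abs]
    refine (abs_gE_le x J _ _ f 1 hf).trans ?_
    simpa using hK1
  | succ k =>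
    show ‖cE J (vol A (k + 1)) (fun _ => true) f x - cE J (vol A k) (fun _ => true) f x‖ ≤ _
    rw [cE_real, cE_real, ← Complex.ofReal_sub, Complex.norm_real, Real.norm_eq_abs,
      (t_BASIC d x J (vol A (k + 1)) _).2.2.2.2.2.1 (vol A k) (vol_mono A (Nat.le_succ k)) f]
    apply gE_sub_const
    intro τ
    exact hK x hx.le (vol A k) (k + 1) (sub_vol A k) (vol_far A k) f hf hfl τ _

/-- the expectation of `f` in the Gibbs state is the sum of the series -/
theorem gk_sum {b : ℝ} (J : Coupling d) (A : Finset (Site d)) (K : ℝ)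
    (hK : Loss J b A K) (f : (Site d → Bool) → ℝ) (hf : ∀ σ, |f σ| ≤ 1) (hfl : LocalOn A f)
    (x : ℝ) (hx : |x| < b) (hs : Summable fun k => rd (gk J A f k) 0 x)
    (π : Measure (Site d → Bool)) (hπ : IsGibbs x J π) :
    ∑' k, rd (gk J A f k) 0 x = ∫ σ, f σ ∂π := by
  have := hπ.1
  have hpart : ∀ n : ℕ, ∑ k ∈ Finset.range (n + 1), rd (gk J A f k) 0 x =
      gE x J (vol A n) (fun _ => true) f := by
    intro n
    induction n with
    | zero =>
      rw [Finset.sum_range_one]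
      show (iteratedDeriv 0 (cE J (vol A 0) (fun _ => true) f) (x : ℂ)).re = _
      rw [iteratedDeriv_zero, cE_real, Complex.ofReal_re]
    | succ n ih =>
      rw [Finset.sum_range_succ, ih]
      show _ + (iteratedDeriv 0 (fun z => cE J (vol A (n + 1)) (fun _ => true) f z -
        cE J (vol A n) (fun _ => true) f z) (x : ℂ)).re = _
      rw [iteratedDeriv_zero, cE_real, cE_real, ← Complex.ofReal_sub, Complex.ofReal_re]
      ring
  have hdev : ∀ n : ℕ, |gE x J (vol A n) (fun _ => true) f - ∫ σ, f σ ∂π| ≤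
      K * Real.exp (-(((n + 1 : ℕ) : ℝ) / 9)) := by
    intro n
    have hfm := local_meas A f hfl
    have e1 := gibbs_int hπ (vol A n) f hfm 1 hf
    have hGm : Measurable fun ω' => gE x J (vol A n) ω' f := meas_gE x J _ f hfm
    have hGi : Integrable (fun ω' => gE x J (vol A n) ω' f) π :=
      Integrable.of_bound hGm.aestronglyMeasurable 1
        (ae_of_all _ fun ω' => abs_gE_le x J _ ω' f 1 hf)
    rw [← e1]
    have e2 : gE x J (vol A n) (fun _ => true) f - ∫ ω', gE x J (vol A n) ω' f ∂π =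
        ∫ ω', (gE x J (vol A n) (fun _ => true) f - gE x J (vol A n) ω' f) ∂π := by
      rw [integral_sub (integrable_const _) hGi]; simp
    rw [e2]
    have := norm_integral_le_of_norm_le_const (μ := π)
      (f := fun ω' => gE x J (vol A n) (fun _ => true) f - gE x J (vol A n) ω' f)
      (C := K * Real.exp (-(((n + 1 : ℕ) : ℝ) / 9))) (ae_of_all _ fun ω' => by
        rw [Real.norm_eq_abs]
        exact hK x hx.le (vol A n) (n + 1) (sub_vol A n) (vol_far A n) f hf hfl _ ω')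
    simpa using this
  have h1 : Tendsto (fun n : ℕ => ∑ k ∈ Finset.range (n + 1), rd (gk J A f k) 0 x) atTop
      (𝓝 (∑' k, rd (gk J A f k) 0 x)) :=
    (hs.hasSum.tendsto_sum_nat).comp (tendsto_add_atTop_nat 1)
  have h2 : Tendsto (fun n : ℕ => ∑ k ∈ Finset.range (n + 1), rd (gk J A f k) 0 x) atTop
      (𝓝 (∫ σ, f σ ∂π)) := by
    simp only [hpart]
    rw [tendsto_iff_norm_sub_tendsto_zero]
    have h3 : Tendsto (fun n : ℕ => ((n + 1 : ℕ) : ℝ) / 9) atTop atTop :=
      (tendsto_natCast_atTop_atTop.comp (tendsto_add_atTop_nat 1)).atTop_div_const (by norm_num)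
    have h4 : Tendsto (fun n : ℕ => Real.exp (-(((n + 1 : ℕ) : ℝ) / 9))) atTop (𝓝 0) :=
      Real.tendsto_exp_neg_atTop_nhds_zero.comp h3
    have h5 : Tendsto (fun n : ℕ => K * Real.exp (-(((n + 1 : ℕ) : ℝ) / 9))) atTop (𝓝 0) := by
      have := h4.const_mul K
      rwa [mul_zero] at this
    exact squeeze_zero (fun n => norm_nonneg _) (fun n => by
      rw [Real.norm_eq_abs]; exact hdev n) h5
  exact tendsto_nhds_unique h1 h2

end Pool.Agent.U475.EA
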